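import Pool.Agent.R264.OE.Defs

/-! Borel–Cantelli assembly of the stages. -/

namespace Pool.Agent.R264.OE

open MeasureTheory Set Filter Topology

namespace PieceASM

section
variable {ι X : Type*} {T : X → X} {s : ℕ → Finset ι} {κ : ι → ℕ}

theorem ind_le (B : Set X) (y : X) : B.indicator (fun _ => (1 : ℝ)) y ≤ 1 := by
  by_cases h : y ∈ B
  · rw [indicator_of_mem h]
  · rw [indicator_of_notMem h]; exact zero_le_one

theorem ind_nonneg (B : Set X) (y : X) : 0 ≤ B.indicator (fun _ => (1 : ℝ)) y := by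
  by_cases h : y ∈ B
  · rw [indicator_of_mem h]; exact zero_le_one
  · rw [indicator_of_notMem h]

theorem avg_nonneg (B : Set X) (x : X) (N : ℕ) : 0 ≤ avg T s κ B x N :=
  div_nonneg (Finset.sum_nonneg fun _ _ => ind_nonneg _ _) (Nat.cast_nonneg _)

theorem avg_le_one (B : Set X) (x : X) (N : ℕ) : avg T s κ B x N ≤ 1 := by
  unfold avg
  apply div_le_one_of_le₀ _ (Nat.cast_nonneg _)
  calc ∑ i ∈ s N, B.indicator (fun _ => (1 : ℝ)) (T^[κ i] x) ≤ ∑ _i ∈ s N, (1 : ℝ) :=
        Finset.sum_le_sum fun i _ => ind_le _ _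
    _ = (s N).card := by simp

/-- Limsup and liminf from two subsequences. -/
theorem lims {a : ℕ → ℝ} (h0 : ∀ n, 0 ≤ a n) (h1 : ∀ n, a n ≤ 1)
    (hu : ∀ ε : ℝ, 0 < ε → ∃ᶠ n in atTop, 1 - ε ≤ a n)
    (hl : ∀ ε : ℝ, 0 < ε → ∃ᶠ n in atTop, a n ≤ ε) :
    limsup a atTop = 1 ∧ liminf a atTop = 0 := by
  have hbu : IsBoundedUnder (· ≤ ·) atTop a := isBoundedUnder_of ⟨1, h1⟩
  have hbl : IsBoundedUnder (· ≥ ·) atTop a := isBoundedUnder_of ⟨0, h0⟩
  constructor
  · apply le_antisymm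
    · exact limsup_le_of_le hbl.isCoboundedUnder_le (Eventually.of_forall h1)
    · refine le_of_forall_pos_le_add fun ε hε => ?_
      have := le_limsup_of_frequently_le (hu ε hε) hbu
      linarith
  · apply le_antisymm
    · refine le_of_forall_pos_le_add fun ε hε => ?_
      have := liminf_le_of_frequently_le (hl ε hε) hbl
      linarith
    · exact le_liminf_of_le hbu.isCoboundedUnder_ge (Eventually.of_forall h0)

end

theorem tsum_half (j : ℕ) : ∑' n : ℕ, (2⁻¹ : ENNReal) ^ (j + 1 + n) = 2⁻¹ ^ j := by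
  simp_rw [pow_add]
  rw [ENNReal.tsum_mul_left, ENNReal.tsum_geometric, ENNReal.one_sub_inv_two, inv_inv, pow_one,
    mul_assoc, ENNReal.inv_mul_cancel two_ne_zero ENNReal.ofNat_ne_top, mul_one]

theorem ofReal_half (i : ℕ) : ENNReal.ofReal ((1 / 2 : ℝ) ^ i) = 2⁻¹ ^ i := by
  rw [ENNReal.ofReal_pow (by norm_num), one_div, ENNReal.ofReal_inv_of_pos (by norm_num)]
  norm_num

end PieceASM

open PieceASM

theorem t_ASM {ι X : Type*} [MeasurableSpace X] {μ : Measure X} [IsProbabilityMeasure μ]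
    {T : X → X} (hT : MeasurePreserving T μ μ) {s : ℕ → Finset ι} {κ : ι → ℕ}
    (hne : ∀ N, 1 ≤ N → (s N).Nonempty) (hst : Stage μ T s κ) :
    ∃ B, MeasurableSet B ∧ ∀ᵐ x ∂μ, limsup (fun N => avg T s κ B x N) atTop = 1 ∧
      liminf (fun N => avg T s κ B x N) atTop = 0 := by
  classical
  have h0 : ∀ j c : ℕ, (0 : ℝ) < (1 / 2) ^ j / (1 + c) := by intro j c; positivity
  have hst2 := fun (j c : ℕ) => hst (j + 1) ((1 / 2) ^ j / (1 + (c : ℝ))) (h0 j c)
  choose K S Bd hS hBd hμS hμBd hN using hst2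
  obtain ⟨c, hc⟩ : ∃ c : ℕ → ℕ, ∀ j, c (j + 1) = c j + K j (c j) :=
    ⟨fun j => Nat.rec (motive := fun _ => ℕ) 0 (fun j cj => cj + K j cj) j, fun _ => rfl⟩
  have hcm : Monotone c := monotone_nat_of_le_succ fun j => by rw [hc]; omega
  have hKc : ∀ i j, i < j → K i (c i) ≤ c j := by
    intro i j hij
    have h1 : c (i + 1) ≤ c j := hcm hij
    rw [hc] at h1
    omega
  -- the sets
  let S' : ℕ → Set X := fun j => S j (c j)
  let Bd' : ℕ → Set X := fun j => Bd j (c j)
  let K' : ℕ → ℕ := fun j => K j (c j)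
  have hηle : ∀ j : ℕ, (1 / 2 : ℝ) ^ j / (1 + (c j : ℝ)) ≤ (1 / 2) ^ j := by
    intro j
    apply div_le_self (by positivity)
    have : (0 : ℝ) ≤ c j := Nat.cast_nonneg _
    linarith
  have hμS' : ∀ i j, i < j → ((K' i + 1 : ℕ) : ENNReal) * μ (S' j) ≤ 2⁻¹ ^ j := by
    intro i j hij
    calc ((K' i + 1 : ℕ) : ENNReal) * μ (S' j)
        ≤ ((K' i + 1 : ℕ) : ENNReal) * ENNReal.ofReal ((1 / 2) ^ j / (1 + c j)) := by
          gcongr; exact hμS j (c j)
      _ = ENNReal.ofReal (((K' i + 1 : ℕ) : ℝ) * ((1 / 2) ^ j / (1 + c j))) := by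
          rw [ENNReal.ofReal_mul (Nat.cast_nonneg _), ENNReal.ofReal_natCast]
      _ ≤ ENNReal.ofReal ((1 / 2) ^ j) := by
          apply ENNReal.ofReal_le_ofReal
          have hK : (K' i : ℝ) ≤ c j := by exact_mod_cast hKc i j hij
          rw [mul_div_assoc', div_le_iff₀ (by positivity)]
          push_cast
          have : (0 : ℝ) < (1 / 2) ^ j := by positivity
          nlinarith
      _ = 2⁻¹ ^ j := ofReal_half j
  let F : ℕ → Set X := fun j => ⋃ n : ℕ, ⋃ k ∈ Finset.range (K' j + 1), T^[k] ⁻¹' (S' (j + 1 + n))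
  have hμF : ∀ j, μ (F j) ≤ 2⁻¹ ^ j := by
    intro j
    calc μ (F j) ≤ ∑' n : ℕ, μ (⋃ k ∈ Finset.range (K' j + 1), T^[k] ⁻¹' (S' (j + 1 + n))) :=
          measure_iUnion_le _
      _ ≤ ∑' n : ℕ, (2⁻¹ : ENNReal) ^ (j + 1 + n) := by
          refine ENNReal.tsum_le_tsum fun n => ?_
          calc μ (⋃ k ∈ Finset.range (K' j + 1), T^[k] ⁻¹' (S' (j + 1 + n)))
              ≤ ∑ k ∈ Finset.range (K' j + 1), μ (T^[k] ⁻¹' (S' (j + 1 + n))) :=
                measure_biUnion_finset_le _ _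
            _ = ∑ k ∈ Finset.range (K' j + 1), μ (S' (j + 1 + n)) := by
                refine Finset.sum_congr rfl fun k _ => ?_
                exact (hT.iterate k).measure_preimage (hS _ _).nullMeasurableSet
            _ = ((K' j + 1 : ℕ) : ENNReal) * μ (S' (j + 1 + n)) := by
                rw [Finset.sum_const, Finset.card_range, nsmul_eq_mul]
            _ ≤ 2⁻¹ ^ (j + 1 + n) := hμS' j (j + 1 + n) (by omega)
      _ = 2⁻¹ ^ j := tsum_half j
  have hsum : ∑' j : ℕ, (2⁻¹ : ENNReal) ^ j ≠ ⊤ := by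
    rw [ENNReal.tsum_geometric, ENNReal.one_sub_inv_two, inv_inv]
    exact ENNReal.ofNat_ne_top
  have haeF : ∀ᵐ x ∂μ, ∀ᶠ j in atTop, x ∉ F j :=
    ae_eventually_notMem (ne_top_of_le_ne_top hsum (ENNReal.tsum_le_tsum hμF))
  have haeB : ∀ᵐ x ∂μ, ∀ᶠ j in atTop, x ∉ Bd' j := by
    refine ae_eventually_notMem (ne_top_of_le_ne_top hsum (ENNReal.tsum_le_tsum fun j => ?_))
    calc μ (Bd' j) ≤ ENNReal.ofReal ((1 / 2) ^ j / (1 + c j)) := hμBd j (c j)
      _ ≤ ENNReal.ofReal ((1 / 2) ^ j) := ENNReal.ofReal_le_ofReal (hηle j)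
      _ = 2⁻¹ ^ j := ofReal_half j
  let B : Set X := ⋃ j : ℕ, ⋃ (_ : Even j), (S' j ∩ ⋂ i : ℕ, ⋂ (_ : j < i), (S' i)ᶜ)
  have hmemB : ∀ y, y ∈ B ↔ ∃ j, Even j ∧ y ∈ S' j ∧ ∀ i, j < i → y ∉ S' i := by
    intro y
    simp only [B, mem_iUnion, mem_inter_iff, mem_iInter, mem_compl_iff, exists_prop]
  refine ⟨B, ?_, ?_⟩
  · refine MeasurableSet.iUnion fun j => MeasurableSet.iUnion fun _ => ?_
    refine (hS j (c j)).inter (MeasurableSet.iInter fun i => MeasurableSet.iInter fun _ => ?_)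
    exact (hS i (c i)).compl
  · filter_upwards [haeF, haeB] with x hxF hxB
    obtain ⟨J, hJ⟩ := eventually_atTop.1 (hxF.and hxB)
    -- behaviour at stage `j`
    have key : ∀ j, J ≤ j → ∃ N, j + 1 ≤ N ∧
        (Even j → 1 - (1 / 2 : ℝ) ^ j ≤ avg T s κ B x N) ∧
        (¬ Even j → avg T s κ B x N ≤ (1 / 2 : ℝ) ^ j) := by
      intro j hj
      obtain ⟨hxFj, hxBj⟩ := hJ j hj
      obtain ⟨N, hjN, hcard⟩ := hN j (c j) x hxBj
      have hcpos : (0 : ℝ) < (s N).card := by
        exact_mod_cast Finset.card_pos.2 (hne N (by omega))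
      have hlast : ∀ i, κ i ≤ K' j → T^[κ i] x ∈ S' j → ∀ i', j < i' → T^[κ i] x ∉ S' i' := by
        intro i hi _ i' hi' hmem
        apply hxFj
        refine mem_iUnion.2 ⟨i' - (j + 1), mem_iUnion₂.2 ⟨κ i, Finset.mem_range.2 (by omega), ?_⟩⟩
        have : j + 1 + (i' - (j + 1)) = i' := by omega
        rw [this]
        exact hmem
      rw [← Finset.sum_boole] at hcard
      have hcard2 := hcard.trans (mul_le_mul_of_nonneg_right (hηle j) hcpos.le)
      refine ⟨N, hjN, fun hev => ?_, fun hodd => ?_⟩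
      · have hterm : ∀ i ∈ s N, (1 : ℝ) - B.indicator (fun _ => (1 : ℝ)) (T^[κ i] x) ≤
            (if ¬ (κ i ≤ K j (c j) ∧ T^[κ i] x ∈ S j (c j)) then (1 : ℝ) else 0) := by
          intro i _
          by_cases hg : κ i ≤ K j (c j) ∧ T^[κ i] x ∈ S j (c j)
          · rw [if_neg (not_not.2 hg)]
            have : T^[κ i] x ∈ B := (hmemB _).2 ⟨j, hev, hg.2, hlast i hg.1 hg.2⟩
            rw [indicator_of_mem this, sub_self]
          · rw [if_pos hg]
            have := ind_nonneg B (T^[κ i] x)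
            linarith
        have hsum1 := (Finset.sum_le_sum hterm).trans hcard2
        rw [Finset.sum_sub_distrib, Finset.sum_const, nsmul_eq_mul, mul_one] at hsum1
        unfold avg
        rw [le_div_iff₀ hcpos]
        linarith
      · have hterm : ∀ i ∈ s N, B.indicator (fun _ => (1 : ℝ)) (T^[κ i] x) ≤
            (if ¬ (κ i ≤ K j (c j) ∧ T^[κ i] x ∈ S j (c j)) then (1 : ℝ) else 0) := by
          intro i _
          by_cases hg : κ i ≤ K j (c j) ∧ T^[κ i] x ∈ S j (c j)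
          · rw [if_neg (not_not.2 hg)]
            have : T^[κ i] x ∉ B := by
              intro hB
              obtain ⟨j', hev, hj', hj'2⟩ := (hmemB _).1 hB
              rcases lt_trichotomy j' j with h | h | h
              · exact hj'2 j h hg.2
              · rw [h] at hev; exact hodd hev
              · exact hlast i hg.1 hg.2 j' h hj'
            rw [indicator_of_notMem this]
          · rw [if_pos hg]
            exact ind_le B (T^[κ i] x)
        have hsum1 := (Finset.sum_le_sum hterm).trans hcard2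
        unfold avg
        rw [div_le_iff₀ hcpos]
        exact hsum1
    refine lims (fun N => avg_nonneg B x N) (fun N => avg_le_one B x N) ?_ ?_
    · intro ε hε
      obtain ⟨m, hm⟩ := exists_pow_lt_of_lt_one hε (by norm_num : (1 / 2 : ℝ) < 1)
      rw [frequently_atTop]
      intro N₀
      obtain ⟨N, h1, h2, -⟩ := key (2 * (J + m + N₀)) (by omega)
      refine ⟨N, by omega, le_trans ?_ (h2 (even_two_mul _))⟩
      have h3 : (1 / 2 : ℝ) ^ (2 * (J + m + N₀)) ≤ (1 / 2) ^ m :=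
        pow_le_pow_of_le_one (by norm_num) (by norm_num) (by omega)
      linarith
    · intro ε hε
      obtain ⟨m, hm⟩ := exists_pow_lt_of_lt_one hε (by norm_num : (1 / 2 : ℝ) < 1)
      rw [frequently_atTop]
      intro N₀
      obtain ⟨N, h1, -, h2⟩ := key (2 * (J + m + N₀) + 1) (by omega)
      refine ⟨N, by omega, le_trans (h2 (by rw [Nat.not_even_iff_odd]; exact odd_two_mul_add_one _)) ?_⟩
      have h3 : (1 / 2 : ℝ) ^ (2 * (J + m + N₀) + 1) ≤ (1 / 2) ^ m :=
        pow_le_pow_of_le_one (by norm_num) (by norm_num) (by omega)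
      linarith

end Pool.Agent.R264.OE
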