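import Pool.Agent.R264.OE.Defs

/-! OE-BOX: lattice points of the box in residue classes. -/

namespace Pool.Agent.R264.OE

open MeasureTheory Set Filter Topology

namespace BOX

/-- points of `[1,N]` congruent to `a` -/
def c (d N a : ℕ) : ℕ := ((Finset.Icc 1 N).filter (fun m => m % d = a)).card

lemma c_bound (d N a : ℕ) (hd : 1 ≤ d) (ha : a < d) : |(c d N a : ℝ) - (N : ℝ) / d| ≤ 1 := by
  have h := Nat.Ioc_filter_modEq_card 0 N (show 0 < d from hd) a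
  have hc : (Finset.Ioc 0 N).filter (fun x => x ≡ a [MOD d]) =
      (Finset.Icc 1 N).filter (fun m => m % d = a) := by
    ext m
    rw [Finset.mem_filter, Finset.mem_filter, Finset.mem_Ioc, Finset.mem_Icc]
    have e : m ≡ a [MOD d] ↔ m % d = a := by
      unfold Nat.ModEq
      rw [Nat.mod_eq_of_lt ha]
    rw [e]
    constructor <;> rintro ⟨h1, h2⟩ <;> exact ⟨by omega, h2⟩
  rw [hc] at h
  have hd0 : (0 : ℚ) < d := by exact_mod_cast hd
  set X : ℤ := ⌊((N : ℚ) - (a : ℚ)) / (d : ℚ)⌋ with hX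
  set Y : ℤ := ⌊(((0 : ℕ) : ℚ) - (a : ℚ)) / (d : ℚ)⌋ with hY
  have h1 : (X : ℚ) ≤ ((N : ℚ) - a) / d := Int.floor_le _
  have h2 : ((N : ℚ) - a) / d < X + 1 := Int.lt_floor_add_one _
  have h3 : (Y : ℚ) ≤ (((0 : ℕ) : ℚ) - a) / d := Int.floor_le _
  have h4 : (((0 : ℕ) : ℚ) - a) / d < Y + 1 := Int.lt_floor_add_one _
  have h5 : ((c d N a : ℤ) : ℚ) = ((max (X - Y) 0 : ℤ) : ℚ) := by
    have : (c d N a : ℤ) = max (X - Y) 0 := h
    rw [this]
  have hN : (0 : ℚ) ≤ (N : ℚ) / d := by positivity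
  have e1 : ((N : ℚ) - a) / d = (N : ℚ) / d - a / d := by ring
  have e2 : (((0 : ℕ) : ℚ) - a) / d = - (a / d) := by push_cast; ring
  rw [e1] at h1 h2
  rw [e2] at h3 h4
  have key : |((c d N a : ℤ) : ℚ) - (N : ℚ) / d| ≤ 1 := by
    rw [h5, abs_le]
    push_cast
    rcases le_total (0 : ℚ) ((X : ℚ) - Y) with hh | hh
    · rw [max_eq_left hh]
      constructor <;> linarith
    · rw [max_eq_right hh]
      constructor <;> linarith
  have key2 : ((|((c d N a : ℤ) : ℚ) - (N : ℚ) / d| : ℚ) : ℝ) ≤ ((1 : ℚ) : ℝ) := by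
    exact_mod_cast key
  push_cast at key2
  exact key2

lemma q_mod (d : ℕ) (v : ℕ × ℕ) : d ∣ q v ↔ d ∣ q (v.1 % d, v.2 % d) := by
  unfold q
  simp only [Nat.dvd_iff_mod_eq_zero]
  rw [Nat.add_mod, Nat.pow_mod v.1, Nat.pow_mod v.2]
  rw [Nat.add_mod ((v.1 % d) ^ 2)]

end BOX

open BOX in
theorem t_BOX : S_BOX := by
  intro d N hd hdN
  set R := (Finset.range d ×ˢ Finset.range d).filter (fun v => d ∣ q v) with hR
  have hmaps : ∀ v ∈ (box N).filter (fun v => d ∣ q v), (v.1 % d, v.2 % d) ∈ R := by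
    intro v hv
    rw [Finset.mem_filter] at hv
    rw [hR, Finset.mem_filter, Finset.mem_product, Finset.mem_range, Finset.mem_range]
    exact ⟨⟨Nat.mod_lt _ hd, Nat.mod_lt _ hd⟩, (q_mod d v).1 hv.2⟩
  have hcard := Finset.card_eq_sum_card_fiberwise hmaps
  have hfib : ∀ w ∈ R, (((box N).filter (fun v => d ∣ q v)).filter
      (fun v => (v.1 % d, v.2 % d) = w)).card = c d N w.1 * c d N w.2 := by
    intro w hw
    rw [hR, Finset.mem_filter] at hw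
    unfold c
    rw [← Finset.card_product]
    congr 1
    ext v
    simp only [Finset.mem_filter, Finset.mem_product, box]
    constructor
    · rintro ⟨⟨⟨h1, h2⟩, h3⟩, h4⟩
      rw [Prod.ext_iff] at h4
      exact ⟨⟨h1, h4.1⟩, ⟨h2, h4.2⟩⟩
    · rintro ⟨⟨h1, h2⟩, ⟨h3, h4⟩⟩
      refine ⟨⟨⟨h1, h3⟩, ?_⟩, ?_⟩
      · rw [q_mod, h2, h4]; exact hw.2
      · rw [h2, h4]
  rw [Finset.sum_congr rfl hfib] at hcard
  have hrho : rho d = R.card := rfl
  rw [hcard, hrho]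
  push_cast
  have hd0 : (0 : ℝ) < d := by exact_mod_cast hd
  set x : ℝ := (N : ℝ) / d with hx
  have hx1 : 1 ≤ x := by
    rw [hx, le_div_iff₀ hd0, one_mul]; exact_mod_cast hdN
  have hsum : (∑ w ∈ R, (c d N w.1 : ℝ) * (c d N w.2 : ℝ)) - (R.card : ℝ) * x ^ 2 =
      ∑ w ∈ R, ((c d N w.1 : ℝ) * (c d N w.2 : ℝ) - x ^ 2) := by
    rw [Finset.sum_sub_distrib, Finset.sum_const, nsmul_eq_mul]
  rw [hsum]
  refine (Finset.abs_sum_le_sum_abs _ _).trans ?_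
  have hterm : ∀ w ∈ R, |(c d N w.1 : ℝ) * (c d N w.2 : ℝ) - x ^ 2| ≤ 3 * x := by
    intro w hw
    rw [hR, Finset.mem_filter, Finset.mem_product, Finset.mem_range, Finset.mem_range] at hw
    have h1 := abs_le.1 (c_bound d N w.1 hd hw.1.1)
    have h2 := abs_le.1 (c_bound d N w.2 hd hw.1.2)
    rw [← hx] at h1 h2
    have e : (c d N w.1 : ℝ) * (c d N w.2 : ℝ) - x ^ 2 =
        ((c d N w.1 : ℝ) - x) * ((c d N w.2 : ℝ) - x) + x * ((c d N w.1 : ℝ) - x) +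
          x * ((c d N w.2 : ℝ) - x) := by ring
    rw [e]
    have a1 : |((c d N w.1 : ℝ) - x)| ≤ 1 := abs_le.2 h1
    have a2 : |((c d N w.2 : ℝ) - x)| ≤ 1 := abs_le.2 h2
    have b1 : |((c d N w.1 : ℝ) - x) * ((c d N w.2 : ℝ) - x)| ≤ 1 := by
      rw [abs_mul]; nlinarith [abs_nonneg ((c d N w.1 : ℝ) - x), abs_nonneg ((c d N w.2 : ℝ) - x)]
    have b2 : |x * ((c d N w.1 : ℝ) - x)| ≤ x := by
      rw [abs_mul, abs_of_nonneg (by linarith : (0:ℝ) ≤ x)]; nlinarith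
    have b3 : |x * ((c d N w.2 : ℝ) - x)| ≤ x := by
      rw [abs_mul, abs_of_nonneg (by linarith : (0:ℝ) ≤ x)]; nlinarith
    have b4 := abs_add_le (((c d N w.1 : ℝ) - x) * ((c d N w.2 : ℝ) - x) +
      x * ((c d N w.1 : ℝ) - x)) (x * ((c d N w.2 : ℝ) - x))
    have b5 := abs_add_le (((c d N w.1 : ℝ) - x) * ((c d N w.2 : ℝ) - x))
      (x * ((c d N w.1 : ℝ) - x))
    linarith
  calc ∑ w ∈ R, |(c d N w.1 : ℝ) * (c d N w.2 : ℝ) - x ^ 2| ≤ ∑ _w ∈ R, 3 * x :=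
        Finset.sum_le_sum hterm
    _ = 3 * (R.card : ℝ) * x := by rw [Finset.sum_const, nsmul_eq_mul]; ring

end Pool.Agent.R264.OE
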