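import Pool.Agent.R264.OE.Defs

/-! The piece COP: `Ω(m² + n²) ≤ W + V + 6` for coprime `m`, `n`. -/

namespace Pool.Agent.R264.OE

namespace COP

lemma fac_two (m n : ℕ) (h : Nat.Coprime m n) (hk : m ^ 2 + n ^ 2 ≠ 0) :
    (m ^ 2 + n ^ 2).factorization 2 ≤ 1 := by
  by_contra hc
  have h2 : 2 ≤ (m ^ 2 + n ^ 2).factorization 2 := by omega
  have h4 : 2 ^ 2 ∣ m ^ 2 + n ^ 2 := (Nat.prime_two.pow_dvd_iff_le_factorization hk).2 h2
  have hm : m % 4 = 0 ∨ m % 4 = 1 ∨ m % 4 = 2 ∨ m % 4 = 3 := by omega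
  have hn : n % 4 = 0 ∨ n % 4 = 1 ∨ n % 4 = 2 ∨ n % 4 = 3 := by omega
  have h5 : (m ^ 2 + n ^ 2) % 4 = 0 := Nat.mod_eq_zero_of_dvd (by simpa using h4)
  have h6 : ((m % 4) ^ 2 + (n % 4) ^ 2) % 4 = 0 := by
    rw [← h5, Nat.add_mod, Nat.pow_mod, Nat.mod_mod, Nat.pow_mod (n % 4), Nat.mod_mod,
      ← Nat.pow_mod, ← Nat.pow_mod, ← Nat.add_mod]
  have h7 : 2 ∣ m ∧ 2 ∣ n := by
    rcases hm with hm | hm | hm | hm <;> rcases hn with hn | hn | hn | hn <;>
      rw [hm, hn] at h6 <;> (constructor <;> omega)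
  have h8 := Nat.dvd_gcd h7.1 h7.2
  rw [h] at h8
  omega

end COP

open COP in
theorem t_COP : S_COP := by
  intro N v hN hv hcop
  obtain ⟨m, n⟩ := v
  simp only at hcop
  have hv' : (1 ≤ m ∧ m ≤ N) ∧ 1 ≤ n ∧ n ≤ N := by
    simpa [box] using hv
  obtain ⟨⟨hm1, hm2⟩, hn1, hn2⟩ := hv'
  set k := q (m, n) with hk
  have hk' : k = m ^ 2 + n ^ 2 := rfl
  have hk0 : k ≠ 0 := by rw [hk']; positivity
  set z := Nat.sqrt N with hz
  set f := k.factorization with hf
  set S := k.primeFactors with hS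
  have hOm : Om k = ∑ p ∈ S, f p := by
    rw [Om, ArithmeticFunction.cardFactors_eq_sum_factorization]
    rfl
  have hkN : k ≤ 2 * N ^ 2 := by
    rw [hk']
    have h1 : m ^ 2 ≤ N ^ 2 := Nat.pow_le_pow_left hm2 2
    have h2 : n ^ 2 ≤ N ^ 2 := Nat.pow_le_pow_left hn2 2
    omega
  have hsq : IsSquare (-1 : ZMod k) := ZMod.isSquare_neg_one_of_eq_sq_add_sq_of_coprime hk' hcop
  have hmod : ∀ p ∈ S, p ≠ 2 → p % 4 = 1 := by
    intro p hp hp2
    have hpp := Nat.prime_of_mem_primeFactors hp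
    have hpd := Nat.dvd_of_mem_primeFactors hp
    have h1 := Nat.mod_four_ne_three_of_mem_primeFactors_of_isSquare_neg_one hp hsq
    have h2 := hpp.eq_two_or_odd
    omega
  -- split the sum
  have hsplit : ∑ p ∈ S, f p = ∑ p ∈ S.filter (fun p => p = 2), f p +
      (∑ p ∈ (S.filter (fun p => ¬ p = 2)).filter (fun p => p ≤ z), f p +
        ∑ p ∈ (S.filter (fun p => ¬ p = 2)).filter (fun p => ¬ p ≤ z), f p) := by
    rw [Finset.sum_filter_add_sum_filter_not, Finset.sum_filter_add_sum_filter_not]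
  have hA : ∑ p ∈ S.filter (fun p => p = 2), f p ≤ 1 := by
    calc ∑ p ∈ S.filter (fun p => p = 2), f p ≤ ∑ p ∈ ({2} : Finset ℕ), f p := by
          apply Finset.sum_le_sum_of_subset
          intro p hp
          simp only [Finset.mem_filter] at hp
          simp [hp.2]
      _ = f 2 := by simp
      _ ≤ 1 := by
          rw [hf, hk']
          exact fac_two m n hcop (by rw [← hk']; exact hk0)
  have hB : ∑ p ∈ (S.filter (fun p => ¬ p = 2)).filter (fun p => p ≤ z), f p ≤
      W z (m, n) + V z (m, n) := by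
    have hsub : (S.filter (fun p => ¬ p = 2)).filter (fun p => p ≤ z) ⊆
        (Pz z).filter (fun p => p ∣ q (m, n)) := by
      intro p hp
      simp only [Finset.mem_filter] at hp
      simp only [Finset.mem_filter, Pz, Finset.mem_range]
      exact ⟨⟨by omega, Nat.prime_of_mem_primeFactors hp.1.1, hmod p hp.1.1 hp.1.2⟩,
        Nat.dvd_of_mem_primeFactors hp.1.1⟩
    calc ∑ p ∈ (S.filter (fun p => ¬ p = 2)).filter (fun p => p ≤ z), f p
        ≤ ∑ p ∈ (Pz z).filter (fun p => p ∣ q (m, n)), f p :=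
          Finset.sum_le_sum_of_subset hsub
      _ ≤ ∑ p ∈ (Pz z).filter (fun p => p ∣ q (m, n)), (1 + (f p - 1)) :=
          Finset.sum_le_sum fun p _ => by omega
      _ = W z (m, n) + ∑ p ∈ (Pz z).filter (fun p => p ∣ q (m, n)), (f p - 1) := by
          rw [Finset.sum_add_distrib]
          simp [W]
      _ ≤ W z (m, n) + V z (m, n) := by
          apply Nat.add_le_add_left
          unfold V
          exact Finset.sum_le_sum_of_subset (Finset.filter_subset _ _)
  have hC : ∑ p ∈ (S.filter (fun p => ¬ p = 2)).filter (fun p => ¬ p ≤ z), f p ≤ 5 := by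
    set T := (S.filter (fun p => ¬ p = 2)).filter (fun p => ¬ p ≤ z) with hT
    have hTS : T ⊆ S := (Finset.filter_subset _ _).trans (Finset.filter_subset _ _)
    have h1 : (z + 1) ^ (∑ p ∈ T, f p) ≤ k := by
      calc (z + 1) ^ (∑ p ∈ T, f p) = ∏ p ∈ T, (z + 1) ^ (f p) :=
            (Finset.prod_pow_eq_pow_sum T f (z + 1)).symm
        _ ≤ ∏ p ∈ T, p ^ (f p) := by
            apply Finset.prod_le_prod'
            intro p hp
            apply Nat.pow_le_pow_left
            simp only [hT, Finset.mem_filter] at hp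
            omega
        _ ≤ ∏ p ∈ S, p ^ (f p) := by
            apply Finset.prod_le_prod_of_subset_of_one_le' hTS
            intro p hp _
            exact Nat.one_le_pow _ _ (Nat.prime_of_mem_primeFactors hp).pos
        _ = k := Nat.prod_factorization_pow_eq_self hk0
    have h2 : N < (z + 1) ^ 2 := by
      rw [hz, pow_two]
      exact Nat.lt_succ_sqrt N
    have h3 : k < (z + 1) ^ 6 := by
      have h4 : N ^ 3 < ((z + 1) ^ 2) ^ 3 := Nat.pow_lt_pow_left h2 (by norm_num)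
      have h5 : 2 * N ^ 2 ≤ N ^ 3 := by
        rw [pow_succ N 2, mul_comm]
        exact Nat.mul_le_mul_left _ (by omega)
      have h6 : ((z + 1) ^ 2) ^ 3 = (z + 1) ^ 6 := by ring
      omega
    have h4 : (z + 1) ^ (∑ p ∈ T, f p) < (z + 1) ^ 6 := lt_of_le_of_lt h1 h3
    have hz1 : 1 < z + 1 := by
      have : 0 < z := by
        rw [hz]
        exact Nat.sqrt_pos.2 (by omega)
      omega
    have h5 := (Nat.pow_lt_pow_iff_right hz1).1 h4
    omega
  rw [hOm, hsplit]
  omega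

end Pool.Agent.R264.OE
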