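import Mathlib

/-! Divergence of ergodic averages along `Ω(m² + n²)`: definitions and statements. -/

namespace Pool.Agent.R264.OE

open MeasureTheory Set Filter Topology

/-- Number of prime factors with multiplicity. -/
abbrev Om (k : ℕ) : ℕ := ArithmeticFunction.cardFactors k

/-- The square `[1,N]²`. -/
def box (N : ℕ) : Finset (ℕ × ℕ) := Finset.Icc 1 N ×ˢ Finset.Icc 1 N

/-- The form `m² + n²`. -/
def q (v : ℕ × ℕ) : ℕ := v.1 ^ 2 + v.2 ^ 2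

/-- Primes `p ≤ z` with `p ≡ 1 mod 4`. -/
def Pz (z : ℕ) : Finset ℕ := (Finset.range (z + 1)).filter (fun p => p.Prime ∧ p % 4 = 1)

/-- Number of primes in `Pz z` dividing `m² + n²`. -/
def W (z : ℕ) (v : ℕ × ℕ) : ℕ := ((Pz z).filter (fun p => p ∣ q v)).card

/-- The mean of `W`. -/
noncomputable def A (z : ℕ) : ℝ := ∑ p ∈ Pz z, (2 * (p : ℝ) - 1) / (p : ℝ) ^ 2

/-- Number of solutions of `m² + n² ≡ 0` modulo `d`. -/
def rho (d : ℕ) : ℕ := ((Finset.range d ×ˢ Finset.range d).filter (fun v => d ∣ q v)).card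

/-- Excess multiplicity. -/
def V (z : ℕ) (v : ℕ × ℕ) : ℕ := ∑ p ∈ Pz z, ((q v).factorization p - 1)

def S_BOX : Prop := ∀ d N : ℕ, 1 ≤ d → d ≤ N →
  |(((box N).filter (fun v => d ∣ q v)).card : ℝ) - rho d * ((N : ℝ) / d) ^ 2| ≤
    3 * rho d * ((N : ℝ) / d)

def S_RHO1 : Prop := ∀ p : ℕ, p.Prime → p % 4 = 1 → rho p = 2 * p - 1

def S_RHO2 : Prop := ∀ p r : ℕ, p.Prime → r.Prime → p ≠ r → rho (p * r) = rho p * rho r

def S_VAR : Prop := ∀ N z : ℕ, 1 ≤ N → z ^ 2 ≤ N →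
  ∑ v ∈ box N, ((W z v : ℝ) - A z) ^ 2 ≤ (A z + 42) * (N : ℝ) ^ 2

def S_COP : Prop := ∀ (N : ℕ) (v : ℕ × ℕ), 3 ≤ N → v ∈ box N → Nat.Coprime v.1 v.2 →
  Om (q v) ≤ W (Nat.sqrt N) v + V (Nat.sqrt N) v + 6

def S_VSUM : Prop := ∀ M z : ℕ,
  ((∑ v ∈ (box M).filter (fun v => Nat.Coprime v.1 v.2), V z v : ℕ) : ℝ) ≤
    2 * (M : ℝ) ^ 2 + 2 * M * z * (Nat.log 2 (2 * M ^ 2))

def S_REM : Prop := ∀ ε : ℝ, 0 < ε → ∃ C : ℕ, ∀ᶠ N : ℕ in atTop,
  (((box N).filter (fun v => W (Nat.sqrt N) v + C < Om (q v))).card : ℝ) ≤ ε * (N : ℝ) ^ 2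

def S_DIV : Prop := Tendsto A atTop atTop

/-- Concentration of `κ` on the finite sets `s N` around a slowly growing centre. -/
def Conc {ι : Type*} (s : ℕ → Finset ι) (κ : ι → ℕ) : Prop :=
  ∃ L : ℕ → ℝ, Tendsto L atTop atTop ∧ (∀ᶠ N in atTop, L (N + 1) ≤ L N + 1) ∧
    ∀ δ : ℝ, 0 < δ → ∀ᶠ N in atTop,
      (((s N).filter (fun i => δ * L N < |(κ i : ℝ) - L N|)).card : ℝ) ≤ δ * (s N).card

def S_NT : Prop := Conc box (fun v => Om (q v))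

/-- There are sets of arbitrarily small positive measure. -/
def Small {X : Type*} [MeasurableSpace X] (μ : Measure X) : Prop :=
  ∀ ε : ENNReal, 0 < ε → ∃ E : Set X, MeasurableSet E ∧ 0 < μ E ∧ μ E < ε

open Classical in
/-- One stage of the construction: a small set `S` which absorbs almost all of an average. -/
def Stage {ι X : Type*} [MeasurableSpace X] (μ : Measure X) (T : X → X)
    (s : ℕ → Finset ι) (κ : ι → ℕ) : Prop :=
  ∀ (M0 : ℕ) (η : ℝ), 0 < η → ∃ (K : ℕ) (S Bd : Set X), MeasurableSet S ∧ MeasurableSet Bd ∧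
    μ S ≤ ENNReal.ofReal η ∧ μ Bd ≤ ENNReal.ofReal η ∧
    ∀ x, x ∉ Bd → ∃ N : ℕ, M0 ≤ N ∧
      (((s N).filter (fun i => ¬ (κ i ≤ K ∧ T^[κ i] x ∈ S))).card : ℝ) ≤ η * (s N).card

/-- The average of the indicator of `B` along `κ` over the finite set `s N`. -/
noncomputable def avg {ι X : Type*} (T : X → X) (s : ℕ → Finset ι) (κ : ι → ℕ) (B : Set X)
    (x : X) (N : ℕ) : ℝ :=
  (∑ i ∈ s N, B.indicator (fun _ => (1 : ℝ)) (T^[κ i] x)) / (s N).card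

end Pool.Agent.R264.OE
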