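import Pool.Agent.R264.OE.Defs

namespace Pool.Agent.R264.OE

open MeasureTheory Set Filter Topology

lemma box_card (N : ℕ) : ((box N).card : ℝ) = (N : ℝ) ^ 2 := by
  unfold box
  rw [Finset.card_product, Nat.card_Icc, Nat.add_sub_cancel]
  push_cast
  ring

lemma box_nonempty (N : ℕ) (hN : 1 ≤ N) : (box N).Nonempty := by
  refine ⟨(1, 1), ?_⟩
  unfold box
  simp [hN]

lemma avg_eq {X : Type*} (T : X → X) (B : Set X) (x : X) (N : ℕ) :
    avg T box (fun v => Om (q v)) B x N =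
      (∑ m ∈ Finset.Icc 1 N, ∑ n ∈ Finset.Icc 1 N,
        B.indicator (fun _ => (1 : ℝ)) (T^[ArithmeticFunction.cardFactors (m ^ 2 + n ^ 2)] x)) /
        (N : ℝ) ^ 2 := by
  unfold avg
  rw [box_card]
  congr 1
  unfold box
  rw [Finset.sum_product]
  rfl

end Pool.Agent.R264.OE
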