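import Pool.Agent.R264.OE.Defs

namespace Pool.Agent.R264.OE

open MeasureTheory Set Filter Topology

theorem hit {X : Type*} [MeasurableSpace X] {mu : MeasureTheory.Measure X}
    [MeasureTheory.IsProbabilityMeasure mu] {T : X → X} (hT : Ergodic T mu) {E : Set X}
    (hE : MeasurableSet E) (h0 : 0 < mu E) : ∀ᵐ x ∂mu, ∃ n, T^[n] x ∈ E := by
  have hmeas : MeasurableSet {x | ∃ n, T^[n] x ∈ E} := by
    have : {x | ∃ n, T^[n] x ∈ E} = ⋃ n, (T^[n]) ⁻¹' E := by ext x; simp
    rw [this]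
    exact MeasurableSet.iUnion fun n => (hT.measurable.iterate n) hE
  have hsub : T ⁻¹' {x | ∃ n, T^[n] x ∈ E} ⊆ {x | ∃ n, T^[n] x ∈ E} := by
    rintro x ⟨n, hn⟩
    exact ⟨n + 1, hn⟩
  rcases hT.ae_empty_or_univ_of_preimage_ae_le hmeas.nullMeasurableSet
    (Filter.Eventually.of_forall hsub) with h | h
  · exfalso
    have h1 : mu {x | ∃ n, T^[n] x ∈ E} = 0 := by
      rw [measure_congr h, measure_empty]
    have h2 : mu E ≤ mu {x | ∃ n, T^[n] x ∈ E} := measure_mono fun x hx => ⟨0, hx⟩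
    rw [h1] at h2
    exact absurd h0 (not_lt.mpr h2)
  · filter_upwards [h] with x hx
    exact hx.to_iff.mpr trivial

/-- first hitting time equal to `k` -/
def Dk {X : Type*} (T : X → X) (E : Set X) (k : ℕ) : Set X :=
  {x | T^[k] x ∈ E ∧ ∀ j < k, T^[j] x ∉ E}

theorem Dk_meas {X : Type*} [MeasurableSpace X] {T : X → X} (hT : Measurable T) {E : Set X}
    (hE : MeasurableSet E) (k : ℕ) : MeasurableSet (Dk T E k) := by
  have : Dk T E k = (T^[k]) ⁻¹' E ∩ ⋂ j, ⋂ (_ : j < k), ((T^[j]) ⁻¹' E)ᶜ := by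
    ext x; simp [Dk]
  rw [this]
  exact ((hT.iterate k) hE).inter
    (MeasurableSet.iInter fun j => MeasurableSet.iInter fun _ => ((hT.iterate j) hE).compl)

theorem res_eq {X : Type*} (T : X → X) (E : Set X) (H r : ℕ) :
    {x | ∃ n, T^[n] x ∈ E ∧ (∀ j < n, T^[j] x ∉ E) ∧ n % H = r} =
      ⋃ n, ⋃ (_ : n % H = r), Dk T E n := by
  ext x
  simp only [mem_iUnion, Dk]
  constructor
  · rintro ⟨n, h1, h2, h3⟩
    exact ⟨n, h3, h1, h2⟩
  · rintro ⟨n, h3, h1, h2⟩
    exact ⟨n, h1, h2, h3⟩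

theorem res_meas {X : Type*} [MeasurableSpace X] {T : X → X} (hT : Measurable T) {E : Set X}
    (hE : MeasurableSet E) (H r : ℕ) :
    MeasurableSet {x | ∃ n, T^[n] x ∈ E ∧ (∀ j < n, T^[j] x ∉ E) ∧ n % H = r} := by
  rw [res_eq]
  exact MeasurableSet.iUnion fun n => MeasurableSet.iUnion fun _ => Dk_meas hT hE n

theorem res {X : Type*} [MeasurableSpace X] {mu : MeasureTheory.Measure X}
    [MeasureTheory.IsProbabilityMeasure mu] {T : X → X}
    (hT : MeasureTheory.MeasurePreserving T mu mu) {E : Set X} (hE : MeasurableSet E) {H : ℕ}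
    (hH : 0 < H) (r : ℕ) (hr : r < H) :
    mu {x | ∃ n, T^[n] x ∈ E ∧ (∀ j < n, T^[j] x ∉ E) ∧ n % H = r} ≤ (H : ENNReal)⁻¹ + mu E := by
  have hD : ∀ k, MeasurableSet (Dk T E k) := Dk_meas hT.measurable hE
  have hstep : ∀ k, mu (Dk T E (k + 1)) ≤ mu (Dk T E k) := by
    intro k
    rw [← hT.measure_preimage (hD k).nullMeasurableSet]
    apply measure_mono
    rintro x ⟨h1, h2⟩
    exact ⟨h1, fun j hj => h2 (j + 1) (by omega)⟩
  have hanti : Antitone fun k => mu (Dk T E k) := antitone_nat_of_succ_le hstep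
  have hdisj : Pairwise (Function.onFun Disjoint fun k => Dk T E k) := by
    intro a b hab
    rw [Function.onFun, Set.disjoint_left]
    rintro x ⟨h1, h2⟩ ⟨h3, h4⟩
    rcases lt_or_gt_of_ne hab with h | h
    · exact h4 a h h1
    · exact h2 b h h3
  have hsum : ∑' k, mu (Dk T E k) ≤ 1 := by
    rw [← measure_iUnion hdisj hD]
    exact prob_le_one
  -- decomposition
  have hcov : {x | ∃ n, T^[n] x ∈ E ∧ (∀ j < n, T^[j] x ∉ E) ∧ n % H = r} ⊆
      Dk T E r ∪ ⋃ i, Dk T E (r + (i + 1) * H) := by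
    rintro x ⟨n, h1, h2, h3⟩
    have hn : n = r + (n / H) * H := by
      have := Nat.mod_add_div n H
      rw [h3, mul_comm] at this
      exact this.symm
    rcases Nat.eq_zero_or_pos (n / H) with h | h
    · left
      rw [h, zero_mul, add_zero] at hn
      rw [← hn]
      exact ⟨h1, h2⟩
    · right
      rw [mem_iUnion]
      refine ⟨n / H - 1, ?_⟩
      have : r + (n / H - 1 + 1) * H = n := by
        rw [Nat.sub_add_cancel h]; exact hn.symm
      rw [this]
      exact ⟨h1, h2⟩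
  have hH' : (H : ENNReal) ≠ 0 := by exact_mod_cast hH.ne'
  have hHt : (H : ENNReal) ≠ ⊤ := ENNReal.natCast_ne_top H
  have hi : ∀ i, mu (Dk T E (r + (i + 1) * H)) ≤
      (H : ENNReal)⁻¹ * ∑ j : Fin H, mu (Dk T E (i * H + j)) := by
    intro i
    have h1 : (H : ENNReal) * mu (Dk T E (r + (i + 1) * H)) ≤
        ∑ j : Fin H, mu (Dk T E (i * H + j)) := by
      have : (H : ENNReal) * mu (Dk T E (r + (i + 1) * H)) =
          ∑ _j : Fin H, mu (Dk T E (r + (i + 1) * H)) := by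
        rw [Finset.sum_const, Finset.card_univ, Fintype.card_fin, nsmul_eq_mul]
      rw [this]
      apply Finset.sum_le_sum
      intro j _
      apply hanti
      have := j.2
      have e : (i + 1) * H = i * H + H := by ring
      rw [e]
      omega
    calc mu (Dk T E (r + (i + 1) * H)) =
        (H : ENNReal)⁻¹ * ((H : ENNReal) * mu (Dk T E (r + (i + 1) * H))) := by
          rw [← mul_assoc, ENNReal.inv_mul_cancel hH' hHt, one_mul]
      _ ≤ _ := by gcongr
  have hinj : Function.Injective (fun p : ℕ × Fin H => p.1 * H + p.2) := by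
    rintro ⟨a, b⟩ ⟨c, d⟩ h
    simp only at h
    have h1 : (a * H + b) / H = a := by
      rw [mul_comm, Nat.mul_add_div hH, Nat.div_eq_of_lt b.2, add_zero]
    have h2 : (c * H + d) / H = c := by
      rw [mul_comm, Nat.mul_add_div hH, Nat.div_eq_of_lt d.2, add_zero]
    have h3 : a = c := by rw [← h1, ← h2, h]
    subst h3
    have h4 : (b : ℕ) = d := by omega
    exact Prod.ext rfl (Fin.ext h4)
  have htot : ∑' i : ℕ, ∑ j : Fin H, mu (Dk T E (i * H + j)) ≤ 1 := by
    have e : ∑' i : ℕ, ∑ j : Fin H, mu (Dk T E (i * H + j)) =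
        ∑' p : ℕ × Fin H, mu (Dk T E (p.1 * H + p.2)) := by
      rw [ENNReal.tsum_prod']
      congr 1
      funext i
      rw [tsum_fintype]
    rw [e]
    exact (ENNReal.tsum_comp_le_tsum_of_injective hinj _).trans hsum
  calc mu {x | ∃ n, T^[n] x ∈ E ∧ (∀ j < n, T^[j] x ∉ E) ∧ n % H = r}
      ≤ mu (Dk T E r ∪ ⋃ i, Dk T E (r + (i + 1) * H)) := measure_mono hcov
    _ ≤ mu (Dk T E r) + mu (⋃ i, Dk T E (r + (i + 1) * H)) := measure_union_le _ _
    _ ≤ mu (Dk T E 0) + ∑' i, mu (Dk T E (r + (i + 1) * H)) :=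
        add_le_add (hanti (Nat.zero_le r)) (measure_iUnion_le _)
    _ ≤ mu E + ∑' i, (H : ENNReal)⁻¹ * ∑ j : Fin H, mu (Dk T E (i * H + j)) := by
        gcongr with i
        · rintro x ⟨h, _⟩; exact h
        · exact hi i
    _ = mu E + (H : ENNReal)⁻¹ * ∑' i, ∑ j : Fin H, mu (Dk T E (i * H + j)) := by
        rw [ENNReal.tsum_mul_left]
    _ ≤ mu E + (H : ENNReal)⁻¹ * 1 := by gcongr
    _ = (H : ENNReal)⁻¹ + mu E := by rw [mul_one, add_comm]

end Pool.Agent.R264.OE
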