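import Pool.Agent.R264.OE.Defs
import Pool.Agent.Helper379.Div3

/-!
# OE-NT (MP_696bea_an): divergence of the mean and concentration
-/

set_option autoImplicit false

namespace Pool.Agent.R264.OE

open MeasureTheory Set Filter Topology

namespace NTx

/-- the term of `A` -/
noncomputable def tm (p : ℕ) : ℝ := (2 * (p : ℝ) - 1) / (p : ℝ) ^ 2

theorem A_def (z : ℕ) : A z = ∑ p ∈ Pz z, tm p := rfl

theorem tm_nonneg {p : ℕ} (hp : 1 ≤ p) : 0 ≤ tm p := by
  unfold tm
  have h : (1 : ℝ) ≤ p := by exact_mod_cast hp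
  apply div_nonneg (by linarith) (by positivity)

theorem tm_le_one {p : ℕ} (hp : 1 ≤ p) : tm p ≤ 1 := by
  unfold tm
  have h : (1 : ℝ) ≤ p := by exact_mod_cast hp
  rw [div_le_one (by positivity)]
  nlinarith [sq_nonneg ((p : ℝ) - 1)]

theorem le_tm {p : ℕ} (hp : 1 ≤ p) : 1 / (p : ℝ) ≤ tm p := by
  unfold tm
  have h : (1 : ℝ) ≤ p := by exact_mod_cast hp
  rw [div_le_div_iff₀ (by linarith) (by positivity)]
  nlinarith

theorem mem_Pz {z p : ℕ} : p ∈ Pz z ↔ p ≤ z ∧ p.Prime ∧ p % 4 = 1 := by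
  unfold Pz
  rw [Finset.mem_filter, Finset.mem_range, Nat.lt_succ_iff]

theorem A_mono : Monotone A := by
  intro a b hab
  rw [A_def, A_def]
  apply Finset.sum_le_sum_of_subset_of_nonneg
  · intro p hp
    rw [mem_Pz] at hp ⊢
    exact ⟨hp.1.trans hab, hp.2⟩
  · intro p hp _
    exact tm_nonneg (mem_Pz.1 hp).2.1.one_le

theorem A_succ (z : ℕ) : A (z + 1) ≤ A z + 1 := by
  rw [A_def, A_def]
  have hsub : Pz (z + 1) ⊆ insert (z + 1) (Pz z) := by
    intro p hp
    rw [mem_Pz] at hp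
    rw [Finset.mem_insert, mem_Pz]
    rcases Nat.lt_or_ge z p with h | h
    · exact Or.inl (by omega)
    · exact Or.inr ⟨h, hp.2⟩
  have hnot : z + 1 ∉ Pz z := by
    rw [mem_Pz]
    intro h
    omega
  calc ∑ p ∈ Pz (z + 1), tm p ≤ ∑ p ∈ insert (z + 1) (Pz z), tm p := by
        apply Finset.sum_le_sum_of_subset_of_nonneg hsub
        intro p hp _
        rcases Finset.mem_insert.1 hp with h | h
        · exact tm_nonneg (by omega)
        · exact tm_nonneg (mem_Pz.1 h).2.1.one_le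
    _ = tm (z + 1) + ∑ p ∈ Pz z, tm p := Finset.sum_insert hnot
    _ ≤ ∑ p ∈ Pz z, tm p + 1 := by
        have := tm_le_one (p := z + 1) (by omega)
        linarith

theorem W_le (z : ℕ) (v : ℕ × ℕ) (hv : q v ≠ 0) : W z v ≤ Om (q v) := by
  unfold W Om
  rw [ArithmeticFunction.cardFactors_apply]
  refine le_trans (Finset.card_le_card ?_) (List.toFinset_card_le _)
  intro p hp
  rw [Finset.mem_filter, mem_Pz] at hp
  rw [List.mem_toFinset, Nat.mem_primeFactorsList hv]
  exact ⟨hp.1.2.1, hp.2⟩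

end NTx

open NTx

theorem t_DIV : S_DIV := by
  unfold S_DIV
  have h1 : IsUnit (1 : ZMod 4) := isUnit_one
  have h2 := Pool.Agent.Helper379.Div3.not_summable_inv_primes_mod (q := 4) (a := 1) h1
  rw [not_summable_iff_tendsto_nat_atTop_of_nonneg] at h2
  · have h3 := h2.comp (tendsto_add_atTop_nat 1)
    refine tendsto_atTop_mono (fun z => ?_) h3
    show ∑ n ∈ Finset.range (z + 1), (if n.Prime ∧ (n : ZMod 4) = 1 then (1 : ℝ) / n else 0) ≤ A z
    rw [← Finset.sum_filter, A_def]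
    have e : (Finset.range (z + 1)).filter (fun n : ℕ => n.Prime ∧ (n : ZMod 4) = 1) = Pz z := by
      unfold Pz
      apply Finset.filter_congr
      intro n _
      have h4 : (n : ZMod 4) = 1 ↔ n % 4 = 1 := by
        have h5 := ZMod.natCast_eq_natCast_iff n 1 4
        rw [Nat.cast_one] at h5
        rw [h5]
        rfl
      rw [h4]
    rw [e]
    exact Finset.sum_le_sum fun p hp => le_tm (mem_Pz.1 hp).2.1.one_le
  · intro n
    split_ifs <;> positivity

theorem NTx.aux (h1 : S_VAR) {N z C : ℕ} {δ L : ℝ} (hδ : 0 < δ) (hN1 : 1 ≤ N) (hz : z ^ 2 ≤ N)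
    (hLz : L = A z) (hL1 : 42 ≤ L) (hL2 : 16 / δ ^ 3 ≤ L) (hL3 : 2 * C / δ ≤ L)
    (hCN : (((box N).filter (fun v => W z v + C < Om (q v))).card : ℝ) ≤ δ / 2 * (N : ℝ) ^ 2) :
    (((box N).filter (fun v => δ * L < |(Om (q v) : ℝ) - L|)).card : ℝ) ≤ δ * (box N).card := by
    have hL0 : 0 < L := by linarith
    have hvar := h1 N z hN1 hz
    rw [← hLz] at hvar
    rw [div_le_iff₀ (by positivity)] at hL2 hL3
    have hbox : ((box N).card : ℝ) = (N : ℝ) ^ 2 := by
      unfold box
      rw [Finset.card_product, Nat.card_Icc]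
      push_cast
      ring
    rw [hbox]
    set B1 := (box N).filter (fun v => δ * L / 2 < |(W z v : ℝ) - L|) with hB1
    set B2 := (box N).filter (fun v => W z v + C < Om (q v)) with hB2
    have hsub : (box N).filter (fun v => δ * L < |(Om (q v) : ℝ) - L|) ⊆ B1 ∪ B2 := by
      intro v hv
      rw [Finset.mem_filter] at hv
      obtain ⟨hvb, hv2⟩ := hv
      rw [Finset.mem_union, hB1, hB2, Finset.mem_filter, Finset.mem_filter]
      by_contra hcon
      push Not at hcon
      have h4 := hcon.1 hvb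
      have h5 := hcon.2 hvb
      have hq : q v ≠ 0 := by
        unfold box at hvb
        rw [Finset.mem_product, Finset.mem_Icc] at hvb
        unfold q
        have : 0 < v.1 ^ 2 := by
          have := hvb.1.1
          positivity
        omega
      have h6 := W_le z v hq
      have h5' : (Om (q v) : ℝ) ≤ (W z v : ℝ) + C := by exact_mod_cast h5
      have h6' : (W z v : ℝ) ≤ (Om (q v) : ℝ) := by exact_mod_cast h6
      rw [abs_le] at h4
      have h7 : |(Om (q v) : ℝ) - L| ≤ δ * L := by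
        rw [abs_le]
        constructor
        · nlinarith [h4.1, mul_pos hδ hL0]
        · nlinarith [h4.2]
      linarith
    have hc1 : ((B1.card : ℝ)) ≤ δ / 2 * (N : ℝ) ^ 2 := by
      have h4 : (B1.card : ℝ) * (δ * L / 2) ^ 2 ≤ (L + 42) * (N : ℝ) ^ 2 := by
        refine le_trans ?_ hvar
        calc (B1.card : ℝ) * (δ * L / 2) ^ 2 = ∑ v ∈ B1, (δ * L / 2) ^ 2 := by
              rw [Finset.sum_const, nsmul_eq_mul]
          _ ≤ ∑ v ∈ B1, ((W z v : ℝ) - L) ^ 2 := by
              apply Finset.sum_le_sum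
              intro v hv
              rw [hB1, Finset.mem_filter] at hv
              rw [← sq_abs ((W z v : ℝ) - L)]
              exact pow_le_pow_left₀ (by positivity) hv.2.le 2
          _ ≤ ∑ v ∈ box N, ((W z v : ℝ) - L) ^ 2 := by
              apply Finset.sum_le_sum_of_subset_of_nonneg (Finset.filter_subset _ _)
              intro v _ _
              positivity
      have h5 : (L + 42) ≤ δ / 2 * (δ * L / 2) ^ 2 := by
        have h6 : L + 42 ≤ 2 * L := by linarith
        have h7 : 2 * L ≤ δ / 2 * (δ * L / 2) ^ 2 := by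
          have h8 : δ / 2 * (δ * L / 2) ^ 2 = L * (L * δ ^ 3) / 8 := by ring
          rw [h8]
          nlinarith
        linarith
      have h9 : 0 < (δ * L / 2) ^ 2 := by positivity
      have h10 : (B1.card : ℝ) * (δ * L / 2) ^ 2 ≤
          (δ / 2 * (N : ℝ) ^ 2) * (δ * L / 2) ^ 2 := by
        have h11 := mul_le_mul_of_nonneg_right h5 (sq_nonneg (N : ℝ))
        linarith
      exact le_of_mul_le_mul_right h10 h9
    have hc2 : (B2.card : ℝ) ≤ δ / 2 * (N : ℝ) ^ 2 := hCN
    have hc3 : ((((box N).filter (fun v => δ * L < |(Om (q v) : ℝ) - L|)).card : ℕ) : ℝ) ≤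
        (B1.card : ℝ) + B2.card := by
      exact_mod_cast (Finset.card_le_card hsub).trans (Finset.card_union_le _ _)
    linarith

theorem t_NT (h1 : S_VAR) (h2 : S_REM) (h3 : S_DIV) : S_NT := by
  have hsq : Tendsto Nat.sqrt atTop atTop := by
    apply tendsto_atTop_atTop.2
    intro b
    exact ⟨b * b, fun a ha => Nat.le_sqrt.2 ha⟩
  have hL : Tendsto (fun N => A (Nat.sqrt N)) atTop atTop := h3.comp hsq
  refine ⟨fun N => A (Nat.sqrt N), hL, ?_, ?_⟩
  · refine Eventually.of_forall fun N => ?_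
    show A (Nat.sqrt (N + 1)) ≤ A (Nat.sqrt N) + 1
    exact le_trans (A_mono (Nat.sqrt_succ_le_succ_sqrt N)) (A_succ _)
  · intro δ hδ
    obtain ⟨C, hC⟩ := h2 (δ / 2) (by positivity)
    have e1 : ∀ᶠ N : ℕ in atTop, 42 ≤ A (Nat.sqrt N) := hL.eventually_ge_atTop 42
    have e2 : ∀ᶠ N : ℕ in atTop, 16 / δ ^ 3 ≤ A (Nat.sqrt N) := hL.eventually_ge_atTop _
    have e3 : ∀ᶠ N : ℕ in atTop, 2 * C / δ ≤ A (Nat.sqrt N) := hL.eventually_ge_atTop _
    filter_upwards [hC, e1, e2, e3, eventually_ge_atTop 1] with N hCN hL1 hL2 hL3 hN1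
    exact NTx.aux h1 hδ hN1 (by rw [pow_two]; exact Nat.sqrt_le N) rfl hL1 hL2 hL3 hCN

end Pool.Agent.R264.OE
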