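import Mathlib
import Pool.Agent.R264.OE.Defs

/-! OE-REM (MP_696bea_an): the remainder `Ω - W` is bounded off a small set. -/

namespace Pool.Agent.R264.OE

open Finset Filter Topology

namespace REMx

theorem Om_le (g : ℕ) (hg : g ≠ 0) : Om g ≤ g := by
  have h1 : 2 ^ (g.primeFactorsList.length) ≤ g.primeFactorsList.prod := by
    refine List.pow_card_le_prod _ _ fun x hx => ?_
    exact (Nat.prime_of_mem_primeFactorsList hx).two_le
  rw [Nat.prod_primeFactorsList hg] at h1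
  have h2 : Om g = g.primeFactorsList.length := ArithmeticFunction.cardFactors_apply
  rw [h2]
  exact (Nat.lt_two_pow_self.trans_le h1).le

theorem q_mul (g : ℕ) (v : ℕ × ℕ) : q (g * v.1, g * v.2) = g ^ 2 * q v := by
  unfold q
  ring

theorem q_ne {v : ℕ × ℕ} (h : 1 ≤ v.1) : q v ≠ 0 := by
  unfold q
  have : 0 < v.1 ^ 2 := by positivity
  omega

theorem Om_mul (g : ℕ) (v : ℕ × ℕ) (hg : g ≠ 0) (h : 1 ≤ v.1) :
    Om (q (g * v.1, g * v.2)) = 2 * Om g + Om (q v) := by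
  rw [q_mul]
  show ArithmeticFunction.cardFactors (g ^ 2 * q v) = _
  rw [ArithmeticFunction.cardFactors_mul (pow_ne_zero 2 hg) (q_ne h),
    ArithmeticFunction.cardFactors_pow]

theorem W_mul (z g : ℕ) (v : ℕ × ℕ) : W z v ≤ W z (g * v.1, g * v.2) := by
  unfold W
  refine card_le_card fun p hp => ?_
  rw [mem_filter] at hp ⊢
  refine ⟨hp.1, ?_⟩
  rw [q_mul]
  exact Dvd.dvd.mul_left hp.2 _

/-- decomposition of a pair -/
theorem dec (N : ℕ) (v : ℕ × ℕ) (hv : v ∈ box N) : ∃ (g : ℕ) (w : ℕ × ℕ), 1 ≤ g ∧ g ≤ N ∧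
    w ∈ box (N / g) ∧ Nat.Coprime w.1 w.2 ∧ v = (g * w.1, g * w.2) := by
  unfold box at hv
  rw [mem_product, mem_Icc, mem_Icc] at hv
  obtain ⟨⟨h1, h2⟩, h3, h4⟩ := hv
  have hg : 0 < Nat.gcd v.1 v.2 := Nat.gcd_pos_of_pos_left _ h1
  have hd1 := Nat.gcd_dvd_left v.1 v.2
  have hd2 := Nat.gcd_dvd_right v.1 v.2
  refine ⟨Nat.gcd v.1 v.2, (v.1 / Nat.gcd v.1 v.2, v.2 / Nat.gcd v.1 v.2), hg,
    (Nat.le_of_dvd h1 hd1).trans h2, ?_, Nat.coprime_div_gcd_div_gcd hg, ?_⟩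
  · unfold box
    rw [mem_product, mem_Icc, mem_Icc]
    exact ⟨⟨Nat.div_pos (Nat.le_of_dvd h1 hd1) hg, Nat.div_le_div_right h2⟩,
      ⟨Nat.div_pos (Nat.le_of_dvd h3 hd2) hg, Nat.div_le_div_right h4⟩⟩
  · refine Prod.ext ?_ ?_
    · exact (Nat.mul_div_cancel' hd1).symm
    · exact (Nat.mul_div_cancel' hd2).symm

theorem card_box (N : ℕ) : (box N).card = N ^ 2 := by
  unfold box
  rw [card_product, Nat.card_Icc, Nat.add_sub_cancel, sq]

theorem box_mono {M N : ℕ} (h : M ≤ N) : box M ⊆ box N := by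
  unfold box
  exact product_subset_product (Icc_subset_Icc le_rfl h) (Icc_subset_Icc le_rfl h)

theorem pow_lt (s : ℕ) (hs : 17 ≤ s) : (s + 1) ^ 4 ≤ 2 ^ s := by
  induction s, hs using Nat.le_induction with
  | base => norm_num
  | succ s hs ih =>
    have h1 : (s + 1 + 1) ^ 4 ≤ 2 * (s + 1) ^ 4 := by
      obtain ⟨t, rfl⟩ : ∃ t, s = t + 17 := ⟨s - 17, by omega⟩
      nlinarith [sq_nonneg (t : ℕ), Nat.zero_le (t ^ 3), Nat.zero_le (t ^ 4), Nat.zero_le (t ^ 2)]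
    calc (s + 1 + 1) ^ 4 ≤ 2 * (s + 1) ^ 4 := h1
      _ ≤ 2 * 2 ^ s := by omega
      _ = 2 ^ (s + 1) := by ring

theorem log_le (N : ℕ) (hN : 17 ^ 2 ≤ N) : Nat.log 2 (2 * N ^ 2) ≤ Nat.sqrt N := by
  have hs : 17 ≤ Nat.sqrt N := by
    rw [Nat.le_sqrt]
    omega
  have h1 := pow_lt _ hs
  have h2 : N < (Nat.sqrt N + 1) ^ 2 := by
    rw [sq]
    exact Nat.lt_succ_sqrt N
  set s := Nat.sqrt N
  have h3 : N ^ 2 < 2 ^ s := by
    calc N ^ 2 < ((s + 1) ^ 2) ^ 2 := Nat.pow_lt_pow_left h2 (by norm_num)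
      _ = (s + 1) ^ 4 := by ring
      _ ≤ 2 ^ s := h1
  have h4 : 2 * N ^ 2 < 2 ^ (s + 1) := by
    have e : 2 ^ (s + 1) = 2 ^ s * 2 := pow_succ 2 s
    omega
  have h5 : Nat.log 2 (2 * N ^ 2) < s + 1 := Nat.log_lt_of_lt_pow (by positivity) h4
  omega

end REMx

open REMx in
theorem t_REM (h1 : S_COP) (h2 : S_VSUM) : S_REM := by
  intro ε hε
  obtain ⟨G, hG⟩ := exists_nat_gt (2 / ε)
  have hG0 : 0 < G := by
    have h3 : 0 < 2 / ε := by positivity
    have : (0 : ℝ) < G := h3.trans hG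
    exact_mod_cast this
  obtain ⟨C', hC'⟩ := exists_nat_gt (8 * G / ε)
  have hC0 : 0 < C' := by
    have h3 : 0 < 8 * G / ε := by positivity
    have : (0 : ℝ) < C' := h3.trans hC'
    exact_mod_cast this
  refine ⟨2 * G + 6 + C', ?_⟩
  filter_upwards [eventually_ge_atTop (17 ^ 2)] with N hN
  have hNpos : 0 < N := by omega
  set z := Nat.sqrt N with hz
  -- the two families of bad pairs
  set B2 : ℕ → Finset (ℕ × ℕ) := fun g =>
    ((box (N / g)).filter (fun w => Nat.Coprime w.1 w.2)).filter (fun w => C' < V z w) with hB2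
  have hsub : (box N).filter (fun v => W z v + (2 * G + 6 + C') < Om (q v)) ⊆
      ((Ioc G N).biUnion fun g => (box (N / g)).image fun w => (g * w.1, g * w.2)) ∪
      ((Icc 1 G).biUnion fun g => (B2 g).image fun w => (g * w.1, g * w.2)) := by
    intro v hv
    rw [mem_filter] at hv
    obtain ⟨hvb, hvW⟩ := hv
    obtain ⟨g, w, hg1, hgN, hw, hc, hvw⟩ := dec N v hvb
    rw [mem_union]
    rcases Nat.lt_or_ge G g with hGg | hGg
    · left
      rw [mem_biUnion]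
      exact ⟨g, mem_Ioc.2 ⟨hGg, hgN⟩, mem_image.2 ⟨w, hw, hvw.symm⟩⟩
    · right
      rw [mem_biUnion]
      refine ⟨g, mem_Icc.2 ⟨hg1, hGg⟩, mem_image.2 ⟨w, ?_, hvw.symm⟩⟩
      rw [hB2]
      simp only [mem_filter]
      refine ⟨⟨hw, hc⟩, ?_⟩
      have hw1 : 1 ≤ w.1 := by
        unfold box at hw
        exact (mem_Icc.1 (mem_product.1 hw).1).1
      have hwN : w ∈ box N := box_mono (Nat.div_le_self N g) hw
      have h3 := h1 N w (by omega) hwN hc
      have h4 := Om_mul g w (by omega) hw1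
      have h5 := Om_le g (by omega)
      have h6 := W_mul z g w
      rw [hvw, h4] at hvW
      rw [← hz] at h3
      omega
  have hcard := card_le_card hsub
  have hc1 : (((Ioc G N).biUnion fun g => (box (N / g)).image fun w => (g * w.1, g * w.2)).card :
      ℝ) ≤ ε / 2 * (N : ℝ) ^ 2 := by
    have h3 : ((Ioc G N).biUnion fun g => (box (N / g)).image fun w => (g * w.1, g * w.2)).card ≤
        ∑ g ∈ Ioc G N, (N / g) ^ 2 := by
      refine card_biUnion_le.trans (sum_le_sum fun g _ => ?_)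
      exact card_image_le.trans (card_box _).le
    have h4 : (((Ioc G N).biUnion fun g => (box (N / g)).image fun w => (g * w.1, g * w.2)).card :
        ℝ) ≤ ∑ g ∈ Ioc G N, (((N / g : ℕ) : ℝ)) ^ 2 := by exact_mod_cast h3
    refine h4.trans ?_
    have h5 : ∑ g ∈ Ioc G N, (((N / g : ℕ) : ℝ)) ^ 2 ≤
        ∑ g ∈ Ioc G N, (N : ℝ) ^ 2 * ((g : ℝ) ^ 2)⁻¹ := by
      refine sum_le_sum fun g hg => ?_
      have h6 : ((N / g : ℕ) : ℝ) ≤ (N : ℝ) / g := Nat.cast_div_le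
      calc (((N / g : ℕ) : ℝ)) ^ 2 ≤ ((N : ℝ) / g) ^ 2 := by gcongr
        _ = (N : ℝ) ^ 2 * ((g : ℝ) ^ 2)⁻¹ := by
            rw [div_pow, div_eq_mul_inv]
    refine h5.trans ?_
    rw [← mul_sum]
    have h6 : ∑ g ∈ Ioc G N, ((g : ℝ) ^ 2)⁻¹ ≤ (G : ℝ)⁻¹ := by
      rcases Nat.lt_or_ge N G with h7 | h7
      · rw [Ioc_eq_empty (by omega), sum_empty]
        positivity
      · have := sum_Ioc_inv_sq_le_sub (α := ℝ) (k := G) (n := N) (by omega) h7
        have h8 : (0 : ℝ) ≤ (N : ℝ)⁻¹ := by positivity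
        linarith
    have h7 : (G : ℝ)⁻¹ ≤ ε / 2 := by
      have hGr : (0 : ℝ) < G := by exact_mod_cast hG0
      rw [inv_le_comm₀ hGr (by positivity), inv_div]
      exact hG.le
    calc (N : ℝ) ^ 2 * ∑ g ∈ Ioc G N, ((g : ℝ) ^ 2)⁻¹ ≤ (N : ℝ) ^ 2 * (ε / 2) := by
          gcongr
          exact h6.trans h7
      _ = ε / 2 * (N : ℝ) ^ 2 := by ring
  have hlog := log_le N hN
  rw [← hz] at hlog
  have hB : ∀ g ∈ Icc 1 G, (C' : ℝ) * ((B2 g).card : ℝ) ≤ 4 * (N : ℝ) ^ 2 := by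
    intro g hg
    set M := N / g with hM
    have hMN : M ≤ N := Nat.div_le_self N g
    have h3 : C' * (B2 g).card ≤
        ∑ w ∈ (box M).filter (fun w => Nat.Coprime w.1 w.2), V z w := by
      calc C' * (B2 g).card = ∑ w ∈ B2 g, C' := by
            rw [sum_const, smul_eq_mul, mul_comm]
        _ ≤ ∑ w ∈ B2 g, V z w := sum_le_sum fun w hw => by
            rw [hB2] at hw
            exact (mem_filter.1 hw).2.le
        _ ≤ _ := by
            refine sum_le_sum_of_subset ?_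
            rw [hB2]
            exact filter_subset _ _
    have h4 : (C' : ℝ) * ((B2 g).card : ℝ) ≤
        2 * (M : ℝ) ^ 2 + 2 * M * z * (Nat.log 2 (2 * M ^ 2)) := by
      refine le_trans ?_ (h2 M z)
      exact_mod_cast h3
    refine h4.trans ?_
    have h5 : Nat.log 2 (2 * M ^ 2) ≤ z := by
      refine (Nat.log_mono_right ?_).trans hlog
      gcongr
    have h6 : z * Nat.log 2 (2 * M ^ 2) ≤ N := by
      calc z * Nat.log 2 (2 * M ^ 2) ≤ z * z := Nat.mul_le_mul_left z h5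
        _ ≤ N := Nat.sqrt_le N
    have h6' : (z : ℝ) * (Nat.log 2 (2 * M ^ 2) : ℕ) ≤ N := by exact_mod_cast h6
    have h7 : (M : ℝ) ≤ N := by exact_mod_cast hMN
    have hM0 : (0 : ℝ) ≤ M := Nat.cast_nonneg M
    calc 2 * (M : ℝ) ^ 2 + 2 * M * z * (Nat.log 2 (2 * M ^ 2) : ℕ)
        = 2 * (M : ℝ) ^ 2 + 2 * M * (z * (Nat.log 2 (2 * M ^ 2) : ℕ)) := by ring
      _ ≤ 2 * (N : ℝ) ^ 2 + 2 * N * N := by gcongr
      _ = 4 * (N : ℝ) ^ 2 := by ring
  have hC0r : (0 : ℝ) < C' := by exact_mod_cast hC0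
  have hc2 : (((Icc 1 G).biUnion fun g => (B2 g).image fun w => (g * w.1, g * w.2)).card : ℝ) ≤
      ε / 2 * (N : ℝ) ^ 2 := by
    have h3 : ((Icc 1 G).biUnion fun g => (B2 g).image fun w => (g * w.1, g * w.2)).card ≤
        ∑ g ∈ Icc 1 G, (B2 g).card :=
      card_biUnion_le.trans (sum_le_sum fun g _ => card_image_le)
    have h4 : (((Icc 1 G).biUnion fun g => (B2 g).image fun w => (g * w.1, g * w.2)).card : ℝ) ≤
        ∑ g ∈ Icc 1 G, ((B2 g).card : ℝ) := by exact_mod_cast h3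
    refine h4.trans ?_
    have h5 : ∑ g ∈ Icc 1 G, ((B2 g).card : ℝ) ≤ ∑ _g ∈ Icc 1 G, 4 * (N : ℝ) ^ 2 / C' := by
      refine sum_le_sum fun g hg => ?_
      rw [le_div_iff₀ hC0r, mul_comm]
      exact hB g hg
    refine h5.trans ?_
    rw [sum_const, nsmul_eq_mul, Nat.card_Icc, Nat.add_sub_cancel, mul_div_assoc', div_le_iff₀ hC0r]
    have h6 : 8 * (G : ℝ) ≤ C' * ε := by
      have := hC'.le
      rwa [div_le_iff₀ hε] at this
    nlinarith [sq_nonneg (N : ℝ), mul_le_mul_of_nonneg_right h6 (sq_nonneg (N : ℝ))]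
  have h3 : (((box N).filter (fun v => W z v + (2 * G + 6 + C') < Om (q v))).card : ℝ) ≤
      (((Ioc G N).biUnion fun g => (box (N / g)).image fun w => (g * w.1, g * w.2)).card : ℝ) +
      (((Icc 1 G).biUnion fun g => (B2 g).image fun w => (g * w.1, g * w.2)).card : ℝ) := by
    exact_mod_cast hcard.trans (card_union_le _ _)
  linarith

end Pool.Agent.R264.OE
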