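import Pool.Agent.R264.OE.Defs

/-! Project OE (MP_696bea_an), pieces RHO1 and RHO2. -/

namespace Pool.Agent.R264.OE

open MeasureTheory Set Filter Topology

theorem rho_eq (d : ℕ) [NeZero d] : rho d =
    ((Finset.univ : Finset (ZMod d × ZMod d)).filter (fun v => v.1 ^ 2 + v.2 ^ 2 = 0)).card := by
  unfold rho
  refine Finset.card_bij' (fun v _ => ((v.1 : ZMod d), (v.2 : ZMod d)))
    (fun w _ => (w.1.val, w.2.val)) ?_ ?_ ?_ ?_
  · rintro ⟨a, b⟩ h
    rw [Finset.mem_filter] at h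
    rw [Finset.mem_filter]
    refine ⟨Finset.mem_univ _, ?_⟩
    have h1 := (ZMod.natCast_eq_zero_iff _ _).2 h.2
    unfold q at h1
    push_cast at h1
    exact h1
  · rintro ⟨a, b⟩ h
    rw [Finset.mem_filter] at h
    rw [Finset.mem_filter, Finset.mem_product, Finset.mem_range, Finset.mem_range]
    refine ⟨⟨ZMod.val_lt _, ZMod.val_lt _⟩, ?_⟩
    rw [← ZMod.natCast_eq_zero_iff]
    unfold q
    push_cast
    rw [ZMod.natCast_zmod_val, ZMod.natCast_zmod_val]
    exact h.2
  · rintro ⟨a, b⟩ h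
    rw [Finset.mem_filter, Finset.mem_product, Finset.mem_range, Finset.mem_range] at h
    simp only [Prod.mk.injEq]
    exact ⟨ZMod.val_natCast_of_lt h.1.1, ZMod.val_natCast_of_lt h.1.2⟩
  · rintro ⟨a, b⟩ h
    simp only [Prod.mk.injEq]
    exact ⟨ZMod.natCast_zmod_val _, ZMod.natCast_zmod_val _⟩

theorem t_RHO1 : S_RHO1 := by
  intro p hp h4
  have : Fact p.Prime := ⟨hp⟩
  rw [rho_eq]
  have hsq : IsSquare (-1 : ZMod p) := ZMod.exists_sq_eq_neg_one_iff.2 (by omega)
  obtain ⟨i, hi⟩ := hsq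
  have hi0 : i ≠ 0 := by
    intro h
    rw [h, mul_zero] at hi
    exact neg_ne_zero.2 one_ne_zero hi
  have h2 : (2 : ZMod p) ≠ 0 := by
    intro h
    have h3 : ((2 : ℕ) : ZMod p) = 0 := by exact_mod_cast h
    rw [ZMod.natCast_eq_zero_iff] at h3
    have := Nat.le_of_dvd (by norm_num) h3
    have := hp.two_le
    omega
  classical
  set S₁ : Finset (ZMod p × ZMod p) := Finset.univ.image (fun b : ZMod p => (i * b, b)) with hS₁
  set S₂ : Finset (ZMod p × ZMod p) := Finset.univ.image (fun b : ZMod p => (-i * b, b)) with hS₂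
  have hU : ((Finset.univ : Finset (ZMod p × ZMod p)).filter (fun v => v.1 ^ 2 + v.2 ^ 2 = 0)) =
      S₁ ∪ S₂ := by
    ext ⟨a, b⟩
    simp only [Finset.mem_filter, Finset.mem_univ, true_and, hS₁, hS₂, Finset.mem_union,
      Finset.mem_image, Prod.mk.injEq]
    have hf : a ^ 2 + b ^ 2 = (a - i * b) * (a + i * b) := by
      linear_combination (-b ^ 2) * hi
    constructor
    · intro h
      rw [hf, mul_eq_zero] at h
      rcases h with h | h
      · left; exact ⟨b, (sub_eq_zero.1 h).symm, rfl⟩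
      · right
        refine ⟨b, ?_, rfl⟩
        rw [neg_mul]
        exact (eq_neg_of_add_eq_zero_left h).symm
    · rintro (⟨c, h, rfl⟩ | ⟨c, h, rfl⟩)
      · rw [hf, ← h]; ring
      · rw [hf, ← h]; ring
  have hI : S₁ ∩ S₂ = {(0, 0)} := by
    ext ⟨a, b⟩
    simp only [hS₁, hS₂, Finset.mem_inter, Finset.mem_image, Finset.mem_univ, true_and,
      Prod.mk.injEq, Finset.mem_singleton]
    constructor
    · rintro ⟨⟨c, h, rfl⟩, ⟨c', h', rfl⟩⟩
      have h3 : 2 * (i * c') = 0 := by linear_combination h - h'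
      have h4 : c' = 0 := by
        rcases mul_eq_zero.1 h3 with h5 | h5
        · exact absurd h5 h2
        · rcases mul_eq_zero.1 h5 with h6 | h6
          · exact absurd h6 hi0
          · exact h6
      refine ⟨?_, h4⟩
      rw [← h, h4, mul_zero]
    · rintro ⟨rfl, rfl⟩
      exact ⟨⟨0, by simp, rfl⟩, ⟨0, by simp, rfl⟩⟩
  have hc₁ : S₁.card = p := by
    rw [hS₁, Finset.card_image_of_injective, Finset.card_univ, ZMod.card]
    intro b b' h
    simp only [Prod.mk.injEq] at h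
    exact h.2
  have hc₂ : S₂.card = p := by
    rw [hS₂, Finset.card_image_of_injective, Finset.card_univ, ZMod.card]
    intro b b' h
    simp only [Prod.mk.injEq] at h
    exact h.2
  have h5 := Finset.card_union_add_card_inter S₁ S₂
  rw [hI, Finset.card_singleton, hc₁, hc₂] at h5
  rw [hU]
  omega

theorem t_RHO2 : S_RHO2 := by
  intro p r hp hr hpr
  have : NeZero p := ⟨hp.ne_zero⟩
  have : NeZero r := ⟨hr.ne_zero⟩
  have : NeZero (p * r) := ⟨Nat.mul_ne_zero hp.ne_zero hr.ne_zero⟩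
  have hco : Nat.Coprime p r := (Nat.coprime_primes hp hr).2 hpr
  rw [rho_eq, rho_eq, rho_eq, ← Finset.card_product]
  let e := ZMod.chineseRemainder hco
  refine Finset.card_equiv
    ((Equiv.prodCongr e.toEquiv e.toEquiv).trans (Equiv.prodProdProdComm _ _ _ _)) ?_
  rintro ⟨a, b⟩
  simp only [Finset.mem_filter, Finset.mem_univ, true_and, Finset.mem_product]
  change a ^ 2 + b ^ 2 = 0 ↔ ((e a).1 ^ 2 + (e b).1 ^ 2 = 0 ∧ (e a).2 ^ 2 + (e b).2 ^ 2 = 0)
  rw [← map_eq_zero_iff e e.injective, map_add, map_pow, map_pow, Prod.ext_iff]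
  rfl

end Pool.Agent.R264.OE
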