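import Pool.Agent.R264.OE.Defs

/-! OE-SMALL: a non-atomic probability on a standard Borel space has small sets. -/

namespace Pool.Agent.R264.OE

open MeasureTheory Set Filter Topology

theorem t_SMALL {X : Type*} [MeasurableSpace X] [StandardBorelSpace X] (mu : Measure X)
    [IsProbabilityMeasure mu] (h : ∀ x, mu {x} = 0) : Small mu := by
  intro ε hε
  have hf := measurableEmbedding_embeddingReal X
  set f : X → ℝ := embeddingReal X with hfd
  have hprob : IsProbabilityMeasure (mu.map f) :=
    Measure.isProbabilityMeasure_map hf.measurable.aemeasurable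
  have hne : (mu.map f) univ ≠ 0 := by
    rw [measure_univ]
    exact one_ne_zero
  obtain ⟨x₀, _, hx₀⟩ := exists_mem_forall_mem_nhdsWithin_pos_measure hne
  have hpt : (mu.map f) {x₀} = 0 := by
    rw [Measure.map_apply hf.measurable (measurableSet_singleton x₀)]
    rcases (f ⁻¹' {x₀}).eq_empty_or_nonempty with he | ⟨y, hy⟩
    · rw [he, measure_empty]
    · have : f ⁻¹' {x₀} = {y} := by
        ext z
        constructor
        · intro hz
          exact hf.injective (hz.trans hy.symm)
        · rintro rfl
          exact hy
      rw [this]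
      exact h y
  obtain ⟨U, hU, hUo, hUε⟩ := Set.exists_isOpen_lt_of_lt ({x₀} : Set ℝ) ε
    (μ := mu.map f) (by rw [hpt]; exact hε)
  refine ⟨f ⁻¹' U, hf.measurable hUo.measurableSet, ?_, ?_⟩
  · rw [← Measure.map_apply hf.measurable hUo.measurableSet]
    apply hx₀
    rw [nhdsWithin_univ]
    exact hUo.mem_nhds (hU rfl)
  · rw [← Measure.map_apply hf.measurable hUo.measurableSet]
    exact hUε

end Pool.Agent.R264.OE
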