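import Pool.Agent.R264.OE.Defs
import Pool.Agent.R264.OE.HIT

/-! Project OE (helper264, MP_696bea_an), piece STG by helper744: one stage of the sweeping-out construction. -/

namespace Pool.Agent.R264.OE

open MeasureTheory Set Filter Topology

namespace StgAux

/-- first hitting -/
lemma first_hit {X : Type*} {T : X → X} {E : Set X} {x : X} (h : ∃ n, T^[n] x ∈ E) :
    ∃ n, T^[n] x ∈ E ∧ ∀ j < n, T^[j] x ∉ E := by
  classical
  exact ⟨Nat.find h, Nat.find_spec h, fun j hj => Nat.find_min h hj⟩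

/-- the level of the averages increases by at most one -/
lemma exists_level {L : ℕ → ℝ} (hL : Tendsto L atTop atTop) {N0 : ℕ} (h1 : ∀ N, N0 ≤ N → L (N + 1) ≤ L N + 1)
    (l : ℝ) (hl : L N0 < l) : ∃ N, N0 ≤ N ∧ l ≤ L N ∧ L N ≤ l + 1 := by
  classical
  have hex : ∃ N, N0 ≤ N ∧ l ≤ L N := by
    obtain ⟨N, hN⟩ := (hL.eventually_ge_atTop l).exists_forall_of_atTop
    exact ⟨max N N0, le_max_right _ _, hN _ (le_max_left _ _)⟩
  have hspec := Nat.find_spec hex
  have hmin : ∀ m < Nat.find hex, ¬ (N0 ≤ m ∧ l ≤ L m) := fun m hm => Nat.find_min hex hm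
  generalize Nat.find hex = N at hspec hmin
  refine ⟨N, hspec.1, hspec.2, ?_⟩
  have hne : N ≠ N0 := by
    rintro rfl
    linarith [hspec.2]
  have hlt : N0 ≤ N - 1 := by have := hspec.1; omega
  have h2 := hmin (N - 1) (by have := hspec.1; omega)
  have h3 := h1 (N - 1) hlt
  rw [show N - 1 + 1 = N by have := hspec.1; omega] at h3
  have h4 : L (N - 1) < l := by
    by_contra h
    exact h2 ⟨hlt, not_lt.1 h⟩
  linarith

/-- the arithmetic of the window -/
lemma window {X : Type*} {T : X → X} {E : Set X} {x : X} {n M W H : ℕ} (hn : T^[n] x ∈ E)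
    (hmin : ∀ j < n, T^[j] x ∉ E) (h3M : 3 * M ≤ n) (hH : H ≤ M) (hWH : 2 * W < H) :
    ∃ l : ℕ, M ≤ l ∧ l < M + H ∧ ∀ k, l ≤ k + W → k ≤ l + W →
      ∃ m, T^[m] (T^[k] x) ∈ E ∧ (∀ j < m, T^[j] (T^[k] x) ∉ E) ∧ m % H ≤ 2 * W := by
  have hH0 : 0 < H := by omega
  have hr := Nat.mod_lt (n - M - W) hH0
  have hdiv := Nat.div_add_mod (n - M - W) H
  set r := (n - M - W) % H with hrdef
  set t := (n - M - W) / H with ht
  refine ⟨M + r, by omega, by omega, fun k hk1 hk2 => ?_⟩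
  have hkn : k ≤ n := by omega
  refine ⟨n - k, ?_, fun j hj => ?_, ?_⟩
  · rw [← Function.iterate_add_apply, Nat.sub_add_cancel hkn]
    exact hn
  · rw [← Function.iterate_add_apply]
    exact hmin _ (by omega)
  · have e : n - k = (M + r + W - k) + H * t := by omega
    rw [e, Nat.add_mul_mod_self_left, Nat.mod_eq_of_lt (by omega)]
    omega

end StgAux

open StgAux

theorem stg_core {ι X : Type*} [MeasurableSpace X] {μ : Measure X} [IsProbabilityMeasure μ] {T : X → X}
    (hT : Measurable T)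
    (hit : ∀ E : Set X, MeasurableSet E → 0 < μ E → ∀ᵐ x ∂μ, ∃ n, T^[n] x ∈ E)
    (hTp : MeasurePreserving T μ μ)
    (res : ∀ E : Set X, MeasurableSet E → ∀ H : ℕ, 0 < H → ∀ r < H,
      μ {x | ∃ n, T^[n] x ∈ E ∧ (∀ j < n, T^[j] x ∉ E) ∧ n % H = r} ≤ (H : ENNReal)⁻¹ + μ E)
    (hs : Small μ) {s : ℕ → Finset ι} {κ : ι → ℕ} (hc : Conc s κ) : Stage μ T s κ := by
  classical
  intro M0 η hη
  obtain ⟨L, hL, hL1, hconc⟩ := hc
  set η' : ℝ := min η 1 with hη'
  have hη'0 : 0 < η' := lt_min hη one_pos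
  have hη'1 : η' ≤ 1 := min_le_right _ _
  have hη'η : η' ≤ η := min_le_left _ _
  set δ : ℝ := η' / 64 with hδ
  have hδ0 : 0 < δ := by positivity
  obtain ⟨N1, hN1⟩ := (hL1.and ((hconc δ hδ0).and (hL.eventually_ge_atTop 0))).exists_forall_of_atTop
  set N0 : ℕ := max M0 N1 with hN0
  obtain ⟨M, hM⟩ := exists_nat_gt (max (L N0) (144 / η'))
  have hM1 : L N0 < M := lt_of_le_of_lt (le_max_left _ _) hM
  have hM2 : 144 / η' < M := lt_of_le_of_lt (le_max_right _ _) hM
  have hM3 : 144 < η' * M := by rw [div_lt_iff₀ hη'0] at hM2; linarith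
  have hM4 : (144 : ℝ) < M := by nlinarith
  have hM5 : 144 < M := by exact_mod_cast hM4
  set W : ℕ := ⌈2 * δ * M⌉₊ + 3 with hW
  set H : ℕ := M / 2 with hH
  have hW1 : (W : ℝ) < 2 * δ * M + 4 := by
    have := Nat.ceil_lt_add_one (show (0 : ℝ) ≤ 2 * δ * M by positivity)
    rw [hW]
    push_cast
    linarith
  have hW2 : 2 * δ * M + 3 ≤ (W : ℝ) := by
    have := Nat.le_ceil (2 * δ * M)
    rw [hW]
    push_cast
    linarith
  have hW3 : (W : ℝ) < M / 32 + 4 := by
    have : 2 * δ * M ≤ M / 32 := by rw [hδ]; nlinarith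
    linarith
  have hW4 : 32 * W < M + 128 := by
    have : 32 * (W : ℝ) < M + 128 := by linarith
    exact_mod_cast this
  have hH1 : (M : ℝ) / 4 ≤ H := by
    have : M ≤ 4 * H := by omega
    have : (M : ℝ) ≤ 4 * H := by exact_mod_cast this
    linarith
  have hHpos : 0 < H := by omega
  have hH0 : (0 : ℝ) < H := by exact_mod_cast hHpos
  set D : ℝ := 2 * (2 * W + 1) + 3 * M with hD
  have hD0 : 0 < D := by positivity
  obtain ⟨E, hE, hE0, hE1⟩ := hs (ENNReal.ofReal (η' / D)) (ENNReal.ofReal_pos.2 (by positivity))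
  have hpre : ∀ n, MeasurableSet {x | T^[n] x ∈ E} := fun n => (hT.iterate n) hE
  have hfirst : ∀ n, MeasurableSet {x | T^[n] x ∈ E ∧ ∀ j < n, T^[j] x ∉ E} := fun n => by
    have e : {x | T^[n] x ∈ E ∧ ∀ j < n, T^[j] x ∉ E} =
        {x | T^[n] x ∈ E} ∩ ⋂ j, ⋂ (_ : j < n), {x | T^[j] x ∈ E}ᶜ := by
      ext x
      simp
    rw [e]
    exact (hpre n).inter (MeasurableSet.iInter fun j => MeasurableSet.iInter fun _ => (hpre j).compl)
  set S : Set X := {x | ∃ n, T^[n] x ∈ E ∧ (∀ j < n, T^[j] x ∉ E) ∧ n % H ≤ 2 * W} with hS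
  set Bd : Set X := {x | ∃ n, T^[n] x ∈ E}ᶜ ∪ ⋃ n ∈ Finset.range (3 * M), {x | T^[n] x ∈ E} with hBd
  have hhit : MeasurableSet {x | ∃ n, T^[n] x ∈ E} := by
    rw [Set.ofPred_exists]
    exact MeasurableSet.iUnion hpre
  refine ⟨3 * M, S, Bd, ?_, ?_, ?_, ?_, ?_⟩
  · have e : S = ⋃ n, ⋃ (_ : n % H ≤ 2 * W), {x | T^[n] x ∈ E ∧ ∀ j < n, T^[j] x ∉ E} := by
      ext x
      simp only [hS, mem_ofPred_eq, mem_iUnion]
      constructor
      · rintro ⟨n, h1, h2, h3⟩
        exact ⟨n, h3, h1, h2⟩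
      · rintro ⟨n, h3, h1, h2⟩
        exact ⟨n, h1, h2, h3⟩
    rw [e]
    exact MeasurableSet.iUnion fun n => MeasurableSet.iUnion fun _ => hfirst n
  · exact hhit.compl.union (Finset.measurableSet_biUnion _ fun n _ => hpre n)
  · -- the measure of S
    have hsub : S ⊆ ⋃ r ∈ Finset.range (2 * W + 1),
        {x | ∃ n, T^[n] x ∈ E ∧ (∀ j < n, T^[j] x ∉ E) ∧ n % H = r} := by
      rintro x ⟨n, h1, h2, h3⟩
      simp only [mem_iUnion]
      exact ⟨n % H, Finset.mem_range.2 (by omega), n, h1, h2, rfl⟩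
    have h1 : μ S ≤ ∑ r ∈ Finset.range (2 * W + 1), ((H : ENNReal)⁻¹ + μ E) :=
      (measure_mono hsub).trans ((measure_biUnion_finset_le _ _).trans
        (Finset.sum_le_sum fun r hr => res E hE H hHpos r (by have := Finset.mem_range.1 hr; omega)))
    rw [Finset.sum_const, Finset.card_range, nsmul_eq_mul] at h1
    have h2 : (H : ENNReal)⁻¹ = ENNReal.ofReal (1 / H) := by
      rw [one_div, ENNReal.ofReal_inv_of_pos hH0, ENNReal.ofReal_natCast]
    have h3 : ((2 * W + 1 : ℕ) : ENNReal) = ENNReal.ofReal ((2 * W + 1 : ℕ) : ℝ) := by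
      rw [ENNReal.ofReal_natCast]
    have h4 : ((2 * W + 1 : ℕ) : ENNReal) * ((H : ENNReal)⁻¹ + μ E) ≤
        ENNReal.ofReal (((2 * W + 1 : ℕ) : ℝ) * (1 / H + η' / D)) := by
      rw [ENNReal.ofReal_mul (by positivity), ENNReal.ofReal_add (by positivity) (by positivity), h2, h3]
      gcongr
    refine h1.trans (h4.trans (ENNReal.ofReal_le_ofReal (le_trans ?_ hη'η)))
    push_cast
    have h5 : (2 * (W : ℝ) + 1) * (1 / H) ≤ η' / 2 := by
      rw [mul_one_div, div_le_iff₀ hH0]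
      have : 2 * δ * M = η' * M / 32 := by rw [hδ]; ring
      nlinarith
    have h6 : (2 * (W : ℝ) + 1) * (η' / D) ≤ η' / 2 := by
      rw [mul_div_assoc', div_le_iff₀ hD0, hD]
      have hM0 : (0 : ℝ) ≤ M := Nat.cast_nonneg _
      nlinarith [mul_nonneg hη'0.le hM0]
    linarith
  · -- the measure of Bd
    have h1 : μ {x | ∃ n, T^[n] x ∈ E}ᶜ = 0 := by
      have := hit E hE hE0
      rwa [ae_iff] at this
    have h2 : μ (⋃ n ∈ Finset.range (3 * M), {x | T^[n] x ∈ E}) ≤ ENNReal.ofReal η := by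
      refine (measure_biUnion_finset_le _ _).trans ?_
      have h3 : ∀ n ∈ Finset.range (3 * M), μ {x | T^[n] x ∈ E} ≤ ENNReal.ofReal (η' / D) := fun n _ => by
        have := (hTp.iterate n).measure_preimage hE.nullMeasurableSet
        exact this.le.trans hE1.le
      refine (Finset.sum_le_sum h3).trans ?_
      rw [Finset.sum_const, Finset.card_range, nsmul_eq_mul, ← ENNReal.ofReal_natCast,
        ← ENNReal.ofReal_mul (by positivity)]
      refine ENNReal.ofReal_le_ofReal (le_trans ?_ hη'η)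
      push_cast
      rw [mul_div_assoc', div_le_iff₀ hD0, hD]
      have hW0 : (0 : ℝ) ≤ W := Nat.cast_nonneg _
      nlinarith [mul_nonneg hη'0.le hW0]
    calc μ Bd ≤ μ {x | ∃ n, T^[n] x ∈ E}ᶜ + μ (⋃ n ∈ Finset.range (3 * M), {x | T^[n] x ∈ E}) :=
          measure_union_le _ _
      _ ≤ ENNReal.ofReal η := by rw [h1, zero_add]; exact h2
  · -- the points outside Bd
    intro x hx
    rw [hBd, mem_union, not_or] at hx
    obtain ⟨n, hn, hmin⟩ := first_hit (not_not.1 hx.1)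
    have h3M : 3 * M ≤ n := by
      by_contra h
      push Not at h
      apply hx.2
      simp only [mem_iUnion]
      exact ⟨n, Finset.mem_range.2 h, hn⟩
    obtain ⟨l, hl1, hl2, hl3⟩ := window (M := M) (W := W) (H := H) hn hmin h3M (by omega) (by omega)
    have hMl : (M : ℝ) ≤ l := by exact_mod_cast hl1
    obtain ⟨N, hN, hlN, hNl⟩ := exists_level hL (N0 := N0)
      (fun N hN => (hN1 N ((le_max_right _ _).trans hN)).1) l (by linarith)
    refine ⟨N, (le_max_left _ _).trans hN, ?_⟩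
    have h2 := (hN1 N ((le_max_right _ _).trans hN)).2.1
    refine le_trans ?_ (h2.trans ?_)
    · refine Nat.cast_le.2 (Finset.card_le_card fun i hi => ?_)
      rw [Finset.mem_filter] at hi ⊢
      refine ⟨hi.1, ?_⟩
      by_contra hcon
      push Not at hcon
      apply hi.2
      have hl4 : (l : ℝ) ≤ 2 * M := by
        have : l ≤ 2 * M := by omega
        exact_mod_cast this
      have h5 : δ * L N ≤ 2 * δ * M + 1 := by
        have h6 : L N ≤ 2 * M + 1 := by linarith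
        have h7 : δ * L N ≤ δ * (2 * M + 1) := mul_le_mul_of_nonneg_left h6 hδ0.le
        have h8 : δ ≤ 1 := by rw [hδ]; linarith
        nlinarith
      have h9 := abs_le.1 (hcon.trans h5)
      have hk1 : (l : ℝ) ≤ κ i + W := by linarith [h9.1]
      have hk2 : (κ i : ℝ) ≤ l + W := by linarith [h9.2]
      have hk1' : l ≤ κ i + W := by exact_mod_cast hk1
      have hk2' : κ i ≤ l + W := by exact_mod_cast hk2
      exact ⟨by omega, hl3 (κ i) hk1' hk2'⟩
    · refine mul_le_mul_of_nonneg_right ?_ (Nat.cast_nonneg _)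
      rw [hδ]
      linarith

theorem t_STG {ι X : Type*} [MeasurableSpace X] {μ : MeasureTheory.Measure X}
    [MeasureTheory.IsProbabilityMeasure μ] {T : X → X} (hT : Ergodic T μ) (hs : Small μ)
    {s : ℕ → Finset ι} {κ : ι → ℕ} (hc : Conc s κ) : Stage μ T s κ :=
  stg_core hT.measurable (fun _ hE h0 => hit hT hE h0) hT.toMeasurePreserving
    (fun _ hE _ hH r hr => res hT.toMeasurePreserving hE hH r hr) hs hc

end Pool.Agent.R264.OE
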