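import Pool.Agent.R264.OE.Defs

/-! MP_696bea_an, project OE: the variance bound. -/

namespace Pool.Agent.R264.OE

open Finset

theorem t_VAR (h1 : S_BOX) (h2 : S_RHO1) (h3 : S_RHO2) : S_VAR := by
  intro N z hN hz
  set P := Pz z with hP
  have hp : ∀ p ∈ P, p.Prime ∧ p % 4 = 1 ∧ 1 ≤ p ∧ p ≤ z := by
    intro p hp
    rw [hP, Pz, mem_filter, mem_range] at hp
    exact ⟨hp.2.1, hp.2.2, hp.2.1.one_le, by omega⟩
  have hzN : z ≤ N := (Nat.le_self_pow (by norm_num) z).trans hz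
  let a : ℕ → ℝ := fun p => (2 * (p : ℝ) - 1) / (p : ℝ) ^ 2
  have hA : A z = ∑ p ∈ P, a p := rfl
  have hN0 : (0 : ℝ) ≤ N := Nat.cast_nonneg N
  have ha0 : ∀ p ∈ P, 0 ≤ a p := by
    intro p hpP
    have h : (1 : ℝ) ≤ p := by exact_mod_cast (hp p hpP).2.2.1
    apply div_nonneg <;> nlinarith
  have ha1 : ∀ p ∈ P, a p ≤ 1 := by
    intro p hpP
    have h : (1 : ℝ) ≤ p := by exact_mod_cast (hp p hpP).2.2.1
    show (2 * (p : ℝ) - 1) / (p : ℝ) ^ 2 ≤ 1
    rw [div_le_one (by positivity)]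
    nlinarith [sq_nonneg ((p : ℝ) - 1)]
  have hcardN : P.card ≤ z := by
    have : P ⊆ Finset.Icc 1 z := by
      intro p hpP
      rw [Finset.mem_Icc]
      exact ⟨(hp p hpP).2.2.1, (hp p hpP).2.2.2⟩
    have := card_le_card this
    rwa [Nat.card_Icc, Nat.add_sub_cancel] at this
  have hcard : (P.card : ℝ) ≤ z := by exact_mod_cast hcardN
  have hA0 : 0 ≤ A z := by
    rw [hA]
    exact sum_nonneg ha0
  have hAz : A z ≤ z := by
    rw [hA]
    refine (sum_le_sum ha1).trans ?_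
    rw [sum_const, nsmul_eq_mul, mul_one]
    exact hcard
  let X : ℕ → ℕ × ℕ → ℝ := fun p v => if p ∣ q v then 1 else 0
  have hW : ∀ v, (W z v : ℝ) = ∑ p ∈ P, X p v := by
    intro v
    unfold W
    rw [card_filter]
    push_cast
    rfl
  have hbox : ((box N).card : ℝ) = (N : ℝ) ^ 2 := by
    unfold box
    rw [card_product, Nat.card_Icc]
    push_cast
    ring
  -- first moments
  have hS1 : ∀ p ∈ P, |∑ v ∈ box N, X p v - a p * (N : ℝ) ^ 2| ≤ 6 * N := by
    intro p hpP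
    obtain ⟨hpp, hp4, hp1, hpz⟩ := hp p hpP
    have h4 := h1 p N hp1 (hpz.trans hzN)
    have h5 : ∑ v ∈ box N, X p v = (((box N).filter (fun v => p ∣ q v)).card : ℝ) := by
      rw [card_filter]
      push_cast
      rfl
    have hpr : (1 : ℝ) ≤ p := by exact_mod_cast hp1
    have h6 : (rho p : ℝ) = 2 * p - 1 := by
      rw [h2 p hpp hp4, Nat.cast_sub (by omega)]
      push_cast
      ring
    have h7 : (rho p : ℝ) * ((N : ℝ) / p) ^ 2 = a p * (N : ℝ) ^ 2 := by
      rw [h6]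
      show _ = (2 * (p : ℝ) - 1) / (p : ℝ) ^ 2 * (N : ℝ) ^ 2
      rw [div_pow]
      ring
    rw [h5, ← h7]
    refine h4.trans ?_
    rw [h6]
    have h8 : 3 * (2 * (p : ℝ) - 1) * (N / p) = (3 * (2 * (p : ℝ) - 1) / p) * N := by ring
    rw [h8]
    apply mul_le_mul_of_nonneg_right _ hN0
    rw [div_le_iff₀ (by linarith)]
    linarith
  -- second moments
  have hS2 : ∀ p ∈ P, ∀ r ∈ P, ∑ v ∈ box N, X p v * X r v ≤
      a p * a r * (N : ℝ) ^ 2 + 12 * N + if p = r then a p * (N : ℝ) ^ 2 + 6 * N else 0 := by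
    intro p hpP r hrP
    by_cases hpr : p = r
    · subst hpr
      rw [if_pos rfl]
      have h4 : ∀ v, X p v * X p v = X p v := by
        intro v
        show (if p ∣ q v then (1 : ℝ) else 0) * (if p ∣ q v then (1 : ℝ) else 0)
          = if p ∣ q v then (1 : ℝ) else 0
        split_ifs <;> simp
      simp only [h4]
      have h5 := (abs_le.1 (hS1 p hpP)).2
      have h6 : 0 ≤ a p * a p * (N : ℝ) ^ 2 := mul_nonneg (mul_self_nonneg _) (sq_nonneg _)
      linarith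
    · rw [if_neg hpr, add_zero]
      obtain ⟨hpp, hp4, hp1, hpz⟩ := hp p hpP
      obtain ⟨hrp, hr4, hr1, hrz⟩ := hp r hrP
      have hcop : Nat.Coprime p r := (Nat.coprime_primes hpp hrp).2 hpr
      have h4 : p * r ≤ N := le_trans (by rw [pow_two]; exact Nat.mul_le_mul hpz hrz) hz
      have h5 := h1 (p * r) N (Nat.mul_pos hp1 hr1) h4
      have h6 : ∑ v ∈ box N, X p v * X r v
          = (((box N).filter (fun v => p * r ∣ q v)).card : ℝ) := by
        rw [card_filter]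
        push_cast
        apply sum_congr rfl
        intro v _
        show (if p ∣ q v then (1 : ℝ) else 0) * (if r ∣ q v then (1 : ℝ) else 0) = _
        by_cases hv : p * r ∣ q v
        · rw [if_pos hv, if_pos ((dvd_mul_right p r).trans hv),
            if_pos ((dvd_mul_left r p).trans hv), mul_one]
        · rw [if_neg hv]
          by_cases hv1 : p ∣ q v
          · by_cases hv2 : r ∣ q v
            · exact absurd (hcop.mul_dvd_of_dvd_of_dvd hv1 hv2) hv
            · rw [if_neg hv2, mul_zero]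
          · rw [if_neg hv1, zero_mul]
      have hpr1 : (1 : ℝ) ≤ p := by exact_mod_cast hp1
      have hrr1 : (1 : ℝ) ≤ r := by exact_mod_cast hr1
      have h7 : (rho (p * r) : ℝ) = (2 * p - 1) * (2 * r - 1) := by
        rw [h3 p r hpp hrp hpr, h2 p hpp hp4, h2 r hrp hr4, Nat.cast_mul,
          Nat.cast_sub (by omega), Nat.cast_sub (by omega)]
        push_cast
        ring
      have h8 : (rho (p * r) : ℝ) * ((N : ℝ) / ((p * r : ℕ) : ℝ)) ^ 2
          = a p * a r * (N : ℝ) ^ 2 := by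
        rw [h7]
        show _ = (2 * (p : ℝ) - 1) / (p : ℝ) ^ 2 * ((2 * (r : ℝ) - 1) / (r : ℝ) ^ 2)
          * (N : ℝ) ^ 2
        push_cast
        field_simp
      have h9 := (abs_le.1 h5).2
      rw [h8] at h9
      rw [h6]
      have h10 : 3 * (rho (p * r) : ℝ) * ((N : ℝ) / ((p * r : ℕ) : ℝ)) ≤ 12 * N := by
        rw [h7]
        push_cast
        have h11 : 3 * ((2 * (p : ℝ) - 1) * (2 * r - 1)) * (N / (p * r))
            = (3 * ((2 * (p : ℝ) - 1) * (2 * r - 1)) / (p * r)) * N := by ring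
        rw [h11]
        apply mul_le_mul_of_nonneg_right _ hN0
        rw [div_le_iff₀ (by positivity)]
        nlinarith [mul_le_mul hpr1 hrr1 zero_le_one (by linarith : (0 : ℝ) ≤ p)]
      linarith
  -- sums
  have hsum1 : A z * (N : ℝ) ^ 2 - 6 * N * P.card ≤ ∑ v ∈ box N, (W z v : ℝ) := by
    simp only [hW]
    rw [sum_comm]
    have h4 : ∀ p ∈ P, a p * (N : ℝ) ^ 2 - 6 * N ≤ ∑ v ∈ box N, X p v := by
      intro p hpP
      have := (abs_le.1 (hS1 p hpP)).1
      linarith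
    refine le_trans (le_of_eq ?_) (sum_le_sum h4)
    rw [sum_sub_distrib, ← sum_mul, ← hA, sum_const, nsmul_eq_mul]
    ring
  have hsum2 : ∑ v ∈ box N, (W z v : ℝ) ^ 2 ≤
      A z ^ 2 * (N : ℝ) ^ 2 + 12 * N * (P.card : ℝ) ^ 2 + A z * (N : ℝ) ^ 2 + 6 * N * P.card := by
    have h4 : ∑ v ∈ box N, (W z v : ℝ) ^ 2
        = ∑ p ∈ P, ∑ r ∈ P, ∑ v ∈ box N, X p v * X r v := by
      have h5 : ∀ v, (W z v : ℝ) ^ 2 = ∑ p ∈ P, ∑ r ∈ P, X p v * X r v := by
        intro v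
        rw [hW, pow_two, sum_mul_sum]
      simp only [h5]
      rw [sum_comm]
      apply sum_congr rfl
      intro p _
      rw [sum_comm]
    rw [h4]
    refine (sum_le_sum (fun p hpP => sum_le_sum (fun r hrP => hS2 p hpP r hrP))).trans ?_
    apply le_of_eq
    have h5 : ∀ p ∈ P, ∑ r ∈ P, (a p * a r * (N : ℝ) ^ 2 + 12 * N +
        if p = r then a p * (N : ℝ) ^ 2 + 6 * N else 0)
        = a p * (A z * (N : ℝ) ^ 2) + 12 * N * P.card + (a p * (N : ℝ) ^ 2 + 6 * N) := by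
      intro p hpP
      rw [sum_add_distrib, sum_add_distrib, sum_ite_eq, if_pos hpP, sum_const, nsmul_eq_mul,
        hA]
      have h6 : ∑ r ∈ P, a p * a r * (N : ℝ) ^ 2 = a p * ((∑ r ∈ P, a r) * (N : ℝ) ^ 2) := by
        rw [sum_mul, mul_sum]
        apply sum_congr rfl
        intro r _
        ring
      rw [h6]
      ring
    have g1 : ∑ p ∈ P, a p * (A z * (N : ℝ) ^ 2) = A z * (A z * (N : ℝ) ^ 2) := by
      rw [← sum_mul, ← hA]
    have g2 : ∑ p ∈ P, a p * (N : ℝ) ^ 2 = A z * (N : ℝ) ^ 2 := by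
      rw [← sum_mul, ← hA]
    have g3 : ∑ _p ∈ P, (12 * (N : ℝ) * P.card) = P.card * (12 * (N : ℝ) * P.card) := by
      rw [sum_const, nsmul_eq_mul]
    have g4 : ∑ _p ∈ P, (6 * (N : ℝ)) = P.card * (6 * (N : ℝ)) := by
      rw [sum_const, nsmul_eq_mul]
    rw [sum_congr rfl h5, sum_add_distrib, sum_add_distrib, sum_add_distrib, g1, g2, g3, g4]
    ring
  -- conclusion
  have hexp : ∑ v ∈ box N, ((W z v : ℝ) - A z) ^ 2 = ∑ v ∈ box N, (W z v : ℝ) ^ 2
      - 2 * A z * ∑ v ∈ box N, (W z v : ℝ) + A z ^ 2 * (N : ℝ) ^ 2 := by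
    have h4 : ∀ v, ((W z v : ℝ) - A z) ^ 2 = (W z v : ℝ) ^ 2 - 2 * A z * (W z v : ℝ) + A z ^ 2 :=
      fun v => by ring
    simp only [h4]
    rw [sum_add_distrib, sum_sub_distrib, ← mul_sum, sum_const, nsmul_eq_mul, hbox]
    ring
  rw [hexp]
  have hzN2 : (z : ℝ) ^ 2 ≤ N := by exact_mod_cast hz
  have hz0 : (0 : ℝ) ≤ z := Nat.cast_nonneg z
  have hzz : (z : ℝ) ≤ (z : ℝ) ^ 2 := by
    have : z ≤ z ^ 2 := Nat.le_self_pow (by norm_num) z
    exact_mod_cast this
  have hP0 : (0 : ℝ) ≤ P.card := Nat.cast_nonneg _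
  have e1 : 2 * A z * (A z * (N : ℝ) ^ 2 - 6 * N * P.card) ≤
      2 * A z * ∑ v ∈ box N, (W z v : ℝ) :=
    mul_le_mul_of_nonneg_left hsum1 (by linarith)
  have e2 : (P.card : ℝ) ^ 2 ≤ (z : ℝ) ^ 2 := pow_le_pow_left₀ hP0 hcard 2
  have e3 : A z * (P.card : ℝ) ≤ (z : ℝ) ^ 2 := by
    rw [pow_two]
    exact mul_le_mul hAz hcard hP0 hz0
  have e4 : 12 * N * (P.card : ℝ) ^ 2 ≤ 12 * N * N := by
    apply mul_le_mul_of_nonneg_left (e2.trans hzN2) (by linarith)
  have e5 : 6 * N * (P.card : ℝ) ≤ 6 * N * N := by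
    apply mul_le_mul_of_nonneg_left (hcard.trans (hzz.trans hzN2)) (by linarith)
  have e6 : 12 * N * (A z * (P.card : ℝ)) ≤ 12 * N * N := by
    apply mul_le_mul_of_nonneg_left (e3.trans hzN2) (by linarith)
  nlinarith [mul_nonneg hN0 hN0]

end Pool.Agent.R264.OE
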