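import Mathlib
import Pool.Agent.R264.OE.Defs

/-! OE-VSUM (MP_696bea_an): sum of the excess multiplicities over coprime pairs. -/

namespace Pool.Agent.R264.OE

open Finset

namespace VSUMx

theorem card_mod (M d : ℕ) (S : Finset ℕ) (hS : ∀ m ∈ S, m ≤ M)
    (h : ∀ m ∈ S, ∀ m' ∈ S, m % d = m' % d) : S.card ≤ M / d + 1 := by
  rw [← card_range (M / d + 1)]
  refine card_le_card_of_injOn (fun m => m / d) ?_ ?_
  · intro m hm
    rw [mem_coe] at hm
    rw [mem_coe, mem_range]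
    exact Nat.lt_succ_of_le (Nat.div_le_div_right (hS m hm))
  · intro m hm m' hm' he
    rw [mem_coe] at hm hm'
    have h1 := Nat.div_add_mod m d
    have h2 := Nat.div_add_mod m' d
    have h3 : m / d = m' / d := he
    rw [h3, h m hm m' hm', h2] at h1
    exact h1.symm

theorem roots (p a n M : ℕ) (hp : p.Prime) (hp2 : p ≠ 2) (ha : 1 ≤ a) (hn : ¬ p ∣ n) :
    ((Icc 1 M).filter (fun m => p ^ a ∣ m ^ 2 + n ^ 2)).card ≤ 2 * (M / p ^ a + 1) := by
  rcases ((Icc 1 M).filter (fun m => p ^ a ∣ m ^ 2 + n ^ 2)).eq_empty_or_nonempty with h | ⟨m0, h⟩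
  · rw [h, card_empty]
    exact Nat.zero_le _
  rw [mem_filter] at h
  obtain ⟨-, hm0⟩ := h
  have hpa : p ∣ p ^ a := dvd_pow_self p (by omega)
  have hpm0 : ¬ p ∣ m0 := by
    intro h1
    have h2 : p ∣ m0 ^ 2 + n ^ 2 := hpa.trans hm0
    have h3 : p ∣ n ^ 2 := (Nat.dvd_add_right (dvd_pow h1 two_ne_zero)).1 h2
    exact hn (hp.dvd_of_dvd_pow h3)
  have hpZ : Prime (p : ℤ) := Nat.prime_iff_prime_int.1 hp
  have key : ∀ m, p ^ a ∣ m ^ 2 + n ^ 2 → m % p ^ a = m0 % p ^ a ∨ p ^ a ∣ m + m0 := by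
    intro m hm
    have h1 : ((p : ℤ) ^ a) ∣ ((m : ℤ) - m0) * ((m : ℤ) + m0) := by
      have h2 : ((p : ℤ) ^ a) ∣ (m : ℤ) ^ 2 + (n : ℤ) ^ 2 := by exact_mod_cast hm
      have h3 : ((p : ℤ) ^ a) ∣ (m0 : ℤ) ^ 2 + (n : ℤ) ^ 2 := by exact_mod_cast hm0
      have h4 := dvd_sub h2 h3
      have e : (m : ℤ) ^ 2 + (n : ℤ) ^ 2 - ((m0 : ℤ) ^ 2 + (n : ℤ) ^ 2) =
          ((m : ℤ) - m0) * ((m : ℤ) + m0) := by ring
      rwa [e] at h4
    by_cases h6 : (p : ℤ) ∣ (m : ℤ) - m0
    · left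
      have h5 : ¬ (p : ℤ) ∣ (m : ℤ) + m0 := by
        intro h5
        have h7 : (p : ℤ) ∣ 2 * (m0 : ℤ) := by
          have h8 := dvd_sub h5 h6
          have e : (m : ℤ) + m0 - ((m : ℤ) - m0) = 2 * (m0 : ℤ) := by ring
          rwa [e] at h8
        have h9 : p ∣ 2 * m0 := by exact_mod_cast h7
        rcases hp.dvd_mul.1 h9 with h10 | h10
        · exact hp2 ((Nat.prime_dvd_prime_iff_eq hp Nat.prime_two).1 h10)
        · exact hpm0 h10
      have h7 := hpZ.pow_dvd_of_dvd_mul_right a h5 h1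
      have h8 : m0 ≡ m [MOD p ^ a] := by
        rw [Nat.modEq_iff_dvd]
        push_cast
        exact h7
      exact h8.symm
    · right
      have h7 := hpZ.pow_dvd_of_dvd_mul_left a h6 h1
      exact_mod_cast h7
  have hsub : (Icc 1 M).filter (fun m => p ^ a ∣ m ^ 2 + n ^ 2) ⊆
      (Icc 1 M).filter (fun m => m % p ^ a = m0 % p ^ a) ∪
        (Icc 1 M).filter (fun m => p ^ a ∣ m + m0) := by
    intro m hm
    rw [mem_filter] at hm
    rw [mem_union, mem_filter, mem_filter]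
    rcases key m hm.2 with h1 | h1
    · exact Or.inl ⟨hm.1, h1⟩
    · exact Or.inr ⟨hm.1, h1⟩
  have c1 : ((Icc 1 M).filter (fun m => m % p ^ a = m0 % p ^ a)).card ≤ M / p ^ a + 1 := by
    refine card_mod M (p ^ a) _ (fun m hm => ?_) (fun m hm m' hm' => ?_)
    · exact (mem_Icc.1 (mem_filter.1 hm).1).2
    · rw [(mem_filter.1 hm).2, (mem_filter.1 hm').2]
  have c2 : ((Icc 1 M).filter (fun m => p ^ a ∣ m + m0)).card ≤ M / p ^ a + 1 := by
    refine card_mod M (p ^ a) _ (fun m hm => ?_) (fun m hm m' hm' => ?_)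
    · exact (mem_Icc.1 (mem_filter.1 hm).1).2
    · have h1 : m + m0 ≡ 0 [MOD p ^ a] := (Nat.modEq_zero_iff_dvd).2 (mem_filter.1 hm).2
      have h2 : m' + m0 ≡ 0 [MOD p ^ a] := (Nat.modEq_zero_iff_dvd).2 (mem_filter.1 hm').2
      exact Nat.ModEq.add_right_cancel' m0 (h1.trans h2.symm)
  exact (card_le_card hsub).trans ((card_union_le _ _).trans (by omega))

/-- pairs for a fixed prime power -/
theorem pairs (p a M : ℕ) (hp : p.Prime) (hp2 : p ≠ 2) (ha : 1 ≤ a) :
    (((box M).filter (fun v => Nat.Coprime v.1 v.2)).filter (fun v => p ^ a ∣ q v)).card ≤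
      2 * (M / p ^ a + 1) * M := by
  have h1 := card_le_mul_card_image_of_maps_to
    (s := ((box M).filter (fun v => Nat.Coprime v.1 v.2)).filter (fun v => p ^ a ∣ q v))
    (f := Prod.snd) (t := Icc 1 M) (by
      intro v hv
      rw [mem_filter, mem_filter] at hv
      unfold box at hv
      rw [mem_product] at hv
      exact hv.1.1.2) (2 * (M / p ^ a + 1)) (by
      intro n hn
      by_cases hpn : p ∣ n
      · have e : (((box M).filter (fun v => Nat.Coprime v.1 v.2)).filter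
            (fun v => p ^ a ∣ q v)).filter (fun v => v.2 = n) = ∅ := by
          rw [filter_eq_empty_iff]
          intro v hv hvn
          rw [mem_filter, mem_filter] at hv
          obtain ⟨⟨-, hc⟩, hd⟩ := hv
          unfold q at hd
          have h2 : p ∣ v.1 ^ 2 + v.2 ^ 2 := (dvd_pow_self p (by omega)).trans hd
          have h3 : p ∣ v.2 := by rw [hvn]; exact hpn
          have h4 : p ∣ v.1 ^ 2 := (Nat.dvd_add_left (dvd_pow h3 two_ne_zero)).1 h2
          have h5 : p ∣ v.1 := hp.dvd_of_dvd_pow h4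
          exact Nat.not_coprime_of_dvd_of_dvd hp.one_lt h5 h3 hc
        rw [e, card_empty]
        exact Nat.zero_le _
      · refine le_trans ?_ (roots p a n M hp hp2 ha hpn)
        refine card_le_card_of_injOn Prod.fst ?_ ?_
        · intro v hv
          rw [mem_coe, mem_filter, mem_filter, mem_filter] at hv
          obtain ⟨⟨⟨hb, -⟩, hd⟩, hvn⟩ := hv
          unfold box at hb
          rw [mem_product] at hb
          unfold q at hd
          rw [hvn] at hd
          rw [mem_coe, mem_filter]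
          exact ⟨hb.1, hd⟩
        · intro v hv w hw h
          rw [mem_coe, mem_filter] at hv hw
          exact Prod.ext h (hv.2.trans hw.2.symm))
  rwa [Nat.card_Icc, Nat.add_sub_cancel] at h1

theorem geo (p : ℝ) (hp : 1 < p) (L : ℕ) :
    ∑ a ∈ Icc 2 L, 1 / p ^ a ≤ 1 / (p * (p - 1)) := by
  have hp0 : 0 < p := by linarith
  have h1 : ∑ a ∈ Icc 2 L, 1 / p ^ a ≤ ∑ i ∈ range (L + 1), 1 / p ^ (i + 2) := by
    have e : ∑ i ∈ range (L + 1), 1 / p ^ (i + 2) =
        ∑ a ∈ (range (L + 1)).map (addRightEmbedding 2), 1 / p ^ a := by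
      rw [sum_map]
      rfl
    rw [e]
    refine sum_le_sum_of_subset_of_nonneg ?_ (fun a _ _ => by positivity)
    intro a ha
    rw [mem_Icc] at ha
    rw [mem_map]
    exact ⟨a - 2, mem_range.2 (by omega), by
      show a - 2 + 2 = a
      omega⟩
  refine h1.trans ?_
  have h2 : Summable (fun i : ℕ => (1 / p) ^ i) :=
    summable_geometric_of_lt_one (by positivity) ((div_lt_one hp0).2 hp)
  have h3 : ∑ i ∈ range (L + 1), (1 / p) ^ i ≤ (1 - 1 / p)⁻¹ := by
    rw [← tsum_geometric_of_lt_one (by positivity) ((div_lt_one hp0).2 hp)]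
    exact h2.sum_le_tsum _ (fun i _ => by positivity)
  have h4 : ∑ i ∈ range (L + 1), 1 / p ^ (i + 2) =
      (1 / p) ^ 2 * ∑ i ∈ range (L + 1), (1 / p) ^ i := by
    rw [mul_sum]
    refine sum_congr rfl fun i _ => ?_
    rw [← pow_add, one_div_pow, add_comm]
  rw [h4]
  calc (1 / p) ^ 2 * ∑ i ∈ range (L + 1), (1 / p) ^ i ≤ (1 / p) ^ 2 * (1 - 1 / p)⁻¹ := by
        gcongr
    _ = 1 / (p * (p - 1)) := by
        have : p - 1 ≠ 0 := by linarith
        have h5 : 1 - 1 / p ≠ 0 := by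
          have : 1 - 1 / p = (p - 1) / p := by field_simp
          rw [this]
          positivity
        field_simp

theorem tele (z : ℕ) : ∑ k ∈ range z, 1 / (((k : ℝ) + 2) * ((k : ℝ) + 2 - 1)) =
    1 - 1 / ((z : ℝ) + 1) := by
  induction z with
  | zero => norm_num
  | succ z ih =>
    rw [sum_range_succ, ih]
    push_cast
    have h1 : (z : ℝ) + 1 ≠ 0 := by positivity
    have h2 : (z : ℝ) + 2 ≠ 0 := by positivity
    have h3 : (z : ℝ) + 2 - 1 = z + 1 := by ring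
    have h4 : (z : ℝ) + 1 + 1 = z + 2 := by ring
    rw [h3, h4]
    field_simp
    ring

theorem primes (z : ℕ) : ∑ p ∈ Pz z, 1 / ((p : ℝ) * ((p : ℝ) - 1)) ≤ 1 := by
  have h1 : ∑ p ∈ Pz z, 1 / ((p : ℝ) * ((p : ℝ) - 1)) ≤
      ∑ k ∈ range z, 1 / (((k : ℝ) + 2) * ((k : ℝ) + 2 - 1)) := by
    have e : ∑ k ∈ range z, 1 / (((k : ℝ) + 2) * ((k : ℝ) + 2 - 1)) =
        ∑ p ∈ (range z).map (addRightEmbedding 2), 1 / ((p : ℝ) * ((p : ℝ) - 1)) := by
      rw [sum_map]
      refine sum_congr rfl fun k _ => ?_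
      have : ((addRightEmbedding 2 k : ℕ) : ℝ) = (k : ℝ) + 2 := by
        show (((k + 2 : ℕ)) : ℝ) = _
        push_cast
        ring
      rw [this]
    rw [e]
    refine sum_le_sum_of_subset_of_nonneg ?_ (fun a ha _ => ?_)
    · intro p hp
      unfold Pz at hp
      rw [mem_filter, mem_range] at hp
      have := hp.2.1.two_le
      rw [mem_map]
      exact ⟨p - 2, mem_range.2 (by omega), by
        show p - 2 + 2 = p
        omega⟩
    · rw [mem_map] at ha
      obtain ⟨k, -, rfl⟩ := ha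
      have : ((addRightEmbedding 2 k : ℕ) : ℝ) = (k : ℝ) + 2 := by
        show (((k + 2 : ℕ)) : ℝ) = _
        push_cast
        ring
      rw [this]
      have : (k : ℝ) + 2 - 1 = k + 1 := by ring
      rw [this]
      positivity
  refine h1.trans ?_
  rw [tele]
  have : 0 < 1 / ((z : ℝ) + 1) := by positivity
  linarith

end VSUMx

open VSUMx in
theorem t_VSUM : S_VSUM := by
  intro M z
  set Lg := Nat.log 2 (2 * M ^ 2) with hLg
  set BC := (box M).filter (fun v => Nat.Coprime v.1 v.2) with hBC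
  have h1 : ∑ v ∈ BC, V z v ≤
      ∑ p ∈ Pz z, ∑ a ∈ Icc 2 Lg, (BC.filter (fun v => p ^ a ∣ q v)).card := by
    unfold V
    rw [sum_comm]
    refine sum_le_sum fun p hp => ?_
    have hpp : p.Prime := by
      unfold Pz at hp
      exact (mem_filter.1 hp).2.1
    have h2 : ∑ v ∈ BC, ((q v).factorization p - 1) ≤
        ∑ v ∈ BC, ((Icc 2 Lg).filter (fun a => p ^ a ∣ q v)).card := by
      refine sum_le_sum fun v hv => ?_
      rw [hBC, mem_filter] at hv
      have hb := hv.1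
      unfold box at hb
      rw [mem_product, mem_Icc, mem_Icc] at hb
      have hq0 : q v ≠ 0 := by
        unfold q
        have : 0 < v.1 ^ 2 := by
          have := hb.1.1
          positivity
        omega
      have hqM : q v ≤ 2 * M ^ 2 := by
        unfold q
        have e1 := Nat.pow_le_pow_left hb.1.2 2
        have e2 := Nat.pow_le_pow_left hb.2.2 2
        omega
      have h3 : Icc 2 ((q v).factorization p) ⊆ (Icc 2 Lg).filter (fun a => p ^ a ∣ q v) := by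
        intro a ha
        rw [mem_Icc] at ha
        have h4 : p ^ a ∣ q v := (hpp.pow_dvd_iff_le_factorization hq0).2 ha.2
        rw [mem_filter, mem_Icc]
        refine ⟨⟨ha.1, ?_⟩, h4⟩
        refine Nat.le_log_of_pow_le one_lt_two ?_
        calc 2 ^ a ≤ p ^ a := Nat.pow_le_pow_left hpp.two_le a
          _ ≤ q v := Nat.le_of_dvd (Nat.pos_of_ne_zero hq0) h4
          _ ≤ 2 * M ^ 2 := hqM
      have h5 := card_le_card h3
      rw [Nat.card_Icc] at h5
      omega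
    refine h2.trans (le_of_eq ?_)
    simp only [card_filter]
    rw [sum_comm]
  have h2 : ((∑ v ∈ BC, V z v : ℕ) : ℝ) ≤
      ∑ p ∈ Pz z, ∑ a ∈ Icc 2 Lg, ((BC.filter (fun v => p ^ a ∣ q v)).card : ℝ) := by
    exact_mod_cast h1
  refine h2.trans ?_
  have h3 : ∀ p ∈ Pz z, ∑ a ∈ Icc 2 Lg, ((BC.filter (fun v => p ^ a ∣ q v)).card : ℝ) ≤
      2 * (M : ℝ) ^ 2 * (1 / ((p : ℝ) * ((p : ℝ) - 1))) + 2 * M * Lg := by
    intro p hp
    unfold Pz at hp
    rw [mem_filter] at hp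
    obtain ⟨-, hpp, hp4⟩ := hp
    have hp2 : p ≠ 2 := by
      rintro rfl
      omega
    have hp1 : (1 : ℝ) < p := by exact_mod_cast hpp.one_lt
    have h4 : ∀ a ∈ Icc 2 Lg, ((BC.filter (fun v => p ^ a ∣ q v)).card : ℝ) ≤
        2 * (M : ℝ) ^ 2 * (1 / (p : ℝ) ^ a) + 2 * M := by
      intro a ha
      rw [mem_Icc] at ha
      have h5 := pairs p a M hpp hp2 (by omega)
      have h6 : ((BC.filter (fun v => p ^ a ∣ q v)).card : ℝ) ≤
          2 * (((M / p ^ a : ℕ) : ℝ) + 1) * M := by exact_mod_cast h5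
      refine h6.trans ?_
      have h7 : ((M / p ^ a : ℕ) : ℝ) ≤ (M : ℝ) / (p : ℝ) ^ a := by
        have := @Nat.cast_div_le ℝ _ _ _ M (p ^ a)
        push_cast at this
        exact this
      calc 2 * (((M / p ^ a : ℕ) : ℝ) + 1) * M ≤ 2 * ((M : ℝ) / (p : ℝ) ^ a + 1) * M := by
            gcongr
        _ = 2 * (M : ℝ) ^ 2 * (1 / (p : ℝ) ^ a) + 2 * M := by ring
    refine (sum_le_sum h4).trans ?_
    rw [sum_add_distrib, ← mul_sum, sum_const, nsmul_eq_mul, Nat.card_Icc]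
    have h8 := geo p hp1 Lg
    have h9 : ((Lg + 1 - 2 : ℕ) : ℝ) ≤ (Lg : ℝ) := by
      have : Lg + 1 - 2 ≤ Lg := by omega
      exact_mod_cast this
    have hM0 : (0 : ℝ) ≤ M := Nat.cast_nonneg M
    have h10 : 2 * (M : ℝ) ^ 2 * ∑ a ∈ Icc 2 Lg, 1 / (p : ℝ) ^ a ≤
        2 * (M : ℝ) ^ 2 * (1 / ((p : ℝ) * ((p : ℝ) - 1))) := by gcongr
    have h11 : ((Lg + 1 - 2 : ℕ) : ℝ) * (2 * M) ≤ (Lg : ℝ) * (2 * M) := by gcongr
    linarith
  refine (sum_le_sum h3).trans ?_
  rw [sum_add_distrib, ← mul_sum, sum_const, nsmul_eq_mul]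
  have h4 := primes z
  have h5 : (Pz z).card ≤ z := by
    have h6 : Pz z ⊆ Icc 1 z := by
      intro p hp
      unfold Pz at hp
      rw [mem_filter, mem_range] at hp
      rw [mem_Icc]
      have := hp.2.1.one_lt
      omega
    have := card_le_card h6
    rwa [Nat.card_Icc, Nat.add_sub_cancel] at this
  have h6 : ((Pz z).card : ℝ) ≤ z := by exact_mod_cast h5
  have h7 : 2 * (M : ℝ) ^ 2 * ∑ p ∈ Pz z, 1 / ((p : ℝ) * ((p : ℝ) - 1)) ≤ 2 * (M : ℝ) ^ 2 * 1 := by
    gcongr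
  have h8 : ((Pz z).card : ℝ) * (2 * M * Lg) ≤ z * (2 * M * Lg) := by gcongr
  calc 2 * (M : ℝ) ^ 2 * ∑ p ∈ Pz z, 1 / ((p : ℝ) * ((p : ℝ) - 1)) +
        ((Pz z).card : ℝ) * (2 * M * Lg) ≤ 2 * (M : ℝ) ^ 2 * 1 + z * (2 * M * Lg) :=
        add_le_add h7 h8
    _ = 2 * (M : ℝ) ^ 2 + 2 * M * z * Lg := by ring

end Pool.Agent.R264.OE
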